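import Pool.Agent.H611Z.Ring.Wind

/-! Maps of an annulus with constant Hopf differential: minimality and a modulus bound. -/

set_option autoImplicit false

namespace Pool.Agent.H611Z.Ring

open Complex Set Filter Metric Topology Function MeasureTheory
open scoped ENNReal NNReal

theorem det_formula (D : ℂ →L[ℝ] ℂ) :
    D.det = (D 1).re * (D I).im - (D I).re * (D 1).im := by
  rw [ContinuousLinearMap.det, ← LinearMap.det_toMatrix basisOneI, Matrix.det_fin_two]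
  simp [LinearMap.toMatrix_apply]

theorem inv_lemma {Ω : Set ℂ} (hΩ : IsOpen Ω) {f : ℂ → ℂ} (hf : ContDiffOn ℝ 1 f Ω)
    (hi : InjOn f Ω) (hd : ∀ z ∈ Ω, (fderiv ℝ f z).det ≠ 0) :
    IsOpen (f '' Ω) ∧ ContDiffOn ℝ 1 (invFunOn f Ω) (f '' Ω) := by
  have key : ∀ z ∈ Ω, f '' Ω ∈ 𝓝 (f z) ∧ ContDiffAt ℝ 1 (invFunOn f Ω) (f z) := by
    intro z hz
    have h1 : ContDiffAt ℝ 1 f z := hf.contDiffAt (hΩ.mem_nhds hz)
    let e : ℂ ≃L[ℝ] ℂ := (fderiv ℝ f z).toContinuousLinearEquivOfDetNeZero (hd z hz)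
    have h2 : HasFDerivAt f (e : ℂ →L[ℝ] ℂ) z := by
      have := (h1.differentiableAt one_ne_zero).hasFDerivAt
      simpa [e] using this
    have h3 := h1.hasStrictFDerivAt' h2 one_ne_zero
    refine ⟨?_, (h1.to_localInverse h2 one_ne_zero).congr_of_eventuallyEq ?_⟩
    · rw [← h3.map_nhds_eq_of_equiv]
      exact image_mem_map (hΩ.mem_nhds hz)
    · refine h3.localInverse_unique ?_
      filter_upwards [hΩ.mem_nhds hz] with x hx
      exact hi.leftInvOn_invFunOn hx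
  refine ⟨isOpen_iff_mem_nhds.2 ?_, ?_⟩
  · rintro _ ⟨z, hz, rfl⟩
    exact (key z hz).1
  · rintro _ ⟨z, hz, rfl⟩
    exact (key z hz).2.contDiffWithinAt

/-- The structure of the differential of the map `h`. -/
structure Hopf (R : ℝ) (h : ℂ → ℂ) (φ : ℂ → ℝ) (e : ℂ → ℂ) : Prop where
  smooth : ContDiffOn ℝ 1 h (ann 1 R)
  inj : InjOn h (ann 1 R)
  unit : ∀ z, ‖e z‖ = 1
  pos : ∀ z ∈ ann 1 R, 0 < φ z
  der : ∀ z ∈ ann 1 R, ∀ v : ℂ, fderiv ℝ h z v =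
    e z * (Real.sinh (φ z) * (v / z).re + Real.cosh (φ z) * (v / z).im * I)

theorem norm_sq_re_im (a b : ℝ) : ‖(a : ℂ) + b * I‖ ^ 2 = a ^ 2 + b ^ 2 := by
  rw [← normSq_eq_norm_sq, normSq_add_mul_I]

theorem det_aux (D : ℂ →L[ℝ] ℂ) (m z : ℂ) (S C : ℝ) (hz : z ≠ 0)
    (h : ∀ v, D v = m * (S * (v / z).re + C * (v / z).im * I)) :
    D.det = ‖m‖ ^ 2 * S * C / ‖z‖ ^ 2 := by
  have hn : normSq z ≠ 0 := by simpa using hz
  rw [det_formula, h, h, ← normSq_eq_norm_sq, ← normSq_eq_norm_sq]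
  simp only [mul_re, mul_im, add_re, add_im, ofReal_re, ofReal_im, I_re, I_im, div_re, div_im,
    one_re, one_im]
  field_simp
  simp only [normSq_apply]
  ring

variable {R : ℝ} {h : ℂ → ℂ} {φ : ℂ → ℝ} {e : ℂ → ℂ}

theorem Hopf.norm_sq (H : Hopf R h φ e) {z : ℂ} (hz : z ∈ ann 1 R) (v : ℂ) :
    ‖fderiv ℝ h z v‖ ^ 2 = Real.sinh (φ z) ^ 2 * ((v / z).re ^ 2 + (v / z).im ^ 2) +
      (v / z).im ^ 2 := by
  rw [H.der z hz, norm_mul, H.unit, one_mul, ← ofReal_mul, ← ofReal_mul, norm_sq_re_im, mul_pow,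
    mul_pow, Real.cosh_sq']
  ring

theorem Hopf.det_ne (H : Hopf R h φ e) {z : ℂ} (hz : z ∈ ann 1 R) : (fderiv ℝ h z).det ≠ 0 := by
  have hz0 := ann_ne zero_le_one hz
  rw [det_aux _ _ _ _ _ hz0 (H.der z hz), H.unit]
  have := Real.sinh_pos_iff.2 (H.pos z hz)
  have := Real.cosh_pos (φ z)
  have := norm_pos_iff.2 hz0
  positivity

theorem energy_eq (f : ℂ → ℂ) (z : ℂ) :
    (((‖fderiv ℝ f z 1‖₊ ^ 2 + ‖fderiv ℝ f z Complex.I‖₊ ^ 2 : ℝ≥0)) : ℝ≥0∞) =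
      ENNReal.ofReal (‖fderiv ℝ f z 1‖ ^ 2 + ‖fderiv ℝ f z Complex.I‖ ^ 2) := by
  rw [← ENNReal.ofReal_coe_nnreal]
  simp

theorem Hopf.energy (H : Hopf R h φ e) {z : ℂ} (hz : z ∈ ann 1 R) :
    ‖fderiv ℝ h z 1‖ ^ 2 + ‖fderiv ℝ h z I‖ ^ 2 =
      2 * Real.sinh (φ z) ^ 2 / ‖z‖ ^ 2 + 1 / ‖z‖ ^ 2 := by
  have hz0 := ann_ne zero_le_one hz
  have hn : normSq z ≠ 0 := by simpa using hz0
  rw [H.norm_sq hz, H.norm_sq hz, ← normSq_eq_norm_sq]
  simp only [div_re, div_im, one_re, one_im, I_re, I_im]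
  field_simp
  simp only [normSq_apply]
  ring

theorem Hopf.minimal (H : Hopf R h φ e) (g : ℂ → ℂ) (hg : ContDiffOn ℝ 1 g (ann 1 R))
    (mg : MapsTo g (ann 1 R) (h '' ann 1 R)) (kg : ℂ → ℂ)
    (hkg : ContDiffOn ℝ 1 kg (h '' ann 1 R)) (mkg : MapsTo kg (h '' ann 1 R) (ann 1 R))
    (e1 : ∀ z ∈ ann 1 R, kg (g z) = z) (e2 : ∀ w ∈ h '' ann 1 R, g (kg w) = w) :
    ∫⁻ z in ann 1 R, ENNReal.ofReal (‖fderiv ℝ h z 1‖ ^ 2 + ‖fderiv ℝ h z I‖ ^ 2) ≤
      ∫⁻ z in ann 1 R, ENNReal.ofReal (‖fderiv ℝ g z 1‖ ^ 2 + ‖fderiv ℝ g z I‖ ^ 2) := by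
  have hO := isOpen_ann 1 R
  have hm := hO.measurableSet
  obtain ⟨-, hk⟩ := inv_lemma hO H.smooth H.inj (fun z hz => H.det_ne hz)
  set k := invFunOn h (ann 1 R) with hk_def
  have mk : MapsTo k (h '' ann 1 R) (ann 1 R) := fun w hw => invFunOn_mem hw
  have k1 : ∀ z ∈ ann 1 R, k (h z) = z := fun z hz => H.inj.leftInvOn_invFunOn hz
  have k2 : ∀ w ∈ h '' ann 1 R, h (k w) = w := fun w hw => invFunOn_eq hw
  let χ : ℂ → ℂ := fun z => k (g z)
  have hχ : ContDiffOn ℝ 1 χ (ann 1 R) := hk.comp hg mg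
  have mχ : MapsTo χ (ann 1 R) (ann 1 R) := mk.comp mg
  have c1 : ∀ z ∈ ann 1 R, kg (h (χ z)) = z := fun z hz => by
    simp only [χ]
    rw [k2 _ (mg hz), e1 z hz]
  have hW := wind zero_le_one zero_le_one hχ mχ
    (hkg.continuousOn.comp H.smooth.continuousOn (mapsTo_image _ _))
    (mkg.comp (mapsTo_image _ _)) c1
  have hχd : ∀ z ∈ ann 1 R, HasFDerivAt χ (fderiv ℝ χ z) z := fun z hz =>
    ((hχ.differentiableOn one_ne_zero).differentiableAt (hO.mem_nhds hz)).hasFDerivAt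
  have himg : χ '' ann 1 R = ann 1 R := by
    refine mχ.image_subset.antisymm (fun p hp => ⟨kg (h p), mkg (mem_image_of_mem _ hp), ?_⟩)
    simp only [χ]
    rw [e2 _ (mem_image_of_mem _ hp), k1 p hp]
  have hcov := lintegral_image_eq_lintegral_abs_det_fderiv_mul volume hm
    (fun z hz => (hχd z hz).hasFDerivWithinAt)
    (fun z hz w hw e => by rw [← c1 z hz, e, c1 w hw])
    (fun p => ENNReal.ofReal (2 * Real.sinh (φ p) ^ 2 / ‖p‖ ^ 2))
  rw [himg] at hcov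
  calc ∫⁻ z in ann 1 R, ENNReal.ofReal (‖fderiv ℝ h z 1‖ ^ 2 + ‖fderiv ℝ h z I‖ ^ 2)
      = ∫⁻ z in ann 1 R, (ENNReal.ofReal (2 * Real.sinh (φ z) ^ 2 / ‖z‖ ^ 2) +
          ENNReal.ofReal (1 / ‖z‖ ^ 2)) := by
        refine setLIntegral_congr_fun hm (fun z hz => ?_)
        rw [H.energy hz, ENNReal.ofReal_add (by positivity) (by positivity)]
    _ = (∫⁻ z in ann 1 R, ENNReal.ofReal (2 * Real.sinh (φ z) ^ 2 / ‖z‖ ^ 2)) +
          ∫⁻ z in ann 1 R, ENNReal.ofReal (1 / ‖z‖ ^ 2) :=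
        lintegral_add_right _ (by fun_prop)
    _ ≤ (∫⁻ z in ann 1 R, ENNReal.ofReal |(fderiv ℝ χ z).det| *
          ENNReal.ofReal (2 * Real.sinh (φ (χ z)) ^ 2 / ‖χ z‖ ^ 2)) +
          ∫⁻ z in ann 1 R, ENNReal.ofReal (gradArg χ z) := by
        rw [hcov]
        exact add_le_add le_rfl hW
    _ ≤ ∫⁻ z in ann 1 R, (ENNReal.ofReal |(fderiv ℝ χ z).det| *
          ENNReal.ofReal (2 * Real.sinh (φ (χ z)) ^ 2 / ‖χ z‖ ^ 2) +
          ENNReal.ofReal (gradArg χ z)) := le_lintegral_add _ _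
    _ ≤ _ := by
        refine setLIntegral_mono' hm (fun z hz => ?_)
        rw [← ENNReal.ofReal_mul (abs_nonneg _), ← ENNReal.ofReal_add (by positivity)
          (by unfold gradArg; positivity)]
        apply ENNReal.ofReal_le_ofReal
        have hhd : HasFDerivAt h (fderiv ℝ h (χ z)) (χ z) :=
          ((H.smooth.differentiableOn one_ne_zero).differentiableAt
            (hO.mem_nhds (mχ hz))).hasFDerivAt
        have hgd : fderiv ℝ g z = (fderiv ℝ h (χ z)).comp (fderiv ℝ χ z) := by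
          refine HasFDerivAt.fderiv ((hhd.comp z (hχd z hz)).congr_of_eventuallyEq ?_)
          filter_upwards [hO.mem_nhds hz] with x hx
          exact (k2 _ (mg hx)).symm
        rw [hgd, ContinuousLinearMap.comp_apply, ContinuousLinearMap.comp_apply,
          H.norm_sq (mχ hz), H.norm_sq (mχ hz), gradArg]
        have hz0 := ann_ne zero_le_one (mχ hz)
        have hdet : (fderiv ℝ χ z).det = ‖χ z‖ ^ 2 *
            ((fderiv ℝ χ z 1 / χ z).re * (fderiv ℝ χ z I / χ z).im -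
              (fderiv ℝ χ z I / χ z).re * (fderiv ℝ χ z 1 / χ z).im) := by
          have hn : normSq (χ z) ≠ 0 := by simpa using hz0
          rw [det_formula, ← normSq_eq_norm_sq]
          simp only [div_re, div_im]
          field_simp
          simp only [normSq_apply]
          ring
        rw [hdet, abs_mul, abs_of_nonneg (sq_nonneg _)]
        have hp : 0 < ‖χ z‖ ^ 2 := by have := norm_pos_iff.2 hz0; positivity
        generalize (fderiv ℝ χ z 1 / χ z).re = a1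
        generalize (fderiv ℝ χ z 1 / χ z).im = a2
        generalize (fderiv ℝ χ z I / χ z).re = b1
        generalize (fderiv ℝ χ z I / χ z).im = b2
        have h1 : 2 * |a1 * b2 - b1 * a2| ≤ a1 ^ 2 + a2 ^ 2 + (b1 ^ 2 + b2 ^ 2) := by
          rcases abs_cases (a1 * b2 - b1 * a2) with h | h <;> rw [h.1] <;>
          nlinarith [sq_nonneg (a1 - b2), sq_nonneg (a1 + b2), sq_nonneg (b1 - a2),
            sq_nonneg (b1 + a2)]
        have h2 : ‖χ z‖ ^ 2 * |a1 * b2 - b1 * a2| * (2 * Real.sinh (φ (χ z)) ^ 2 / ‖χ z‖ ^ 2) =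
            Real.sinh (φ (χ z)) ^ 2 * (2 * |a1 * b2 - b1 * a2|) := by
          field_simp
        rw [h2]
        nlinarith [mul_le_mul_of_nonneg_left h1 (sq_nonneg (Real.sinh (φ (χ z))))]

theorem Hopf.modulus (H : Hopf R h φ e) {rs : ℝ} (hrs : 0 ≤ rs) {ψ : ℂ → ℂ}
    (hψ : ∀ p ∈ h '' ann 1 R, ∃ d : ℂ, d ≠ 0 ∧ HasDerivAt ψ d p)
    (iψ : InjOn ψ (h '' ann 1 R)) (sψ : ψ '' (h '' ann 1 R) = ann rs 1) :
    ∫⁻ z in ann rs 1, ENNReal.ofReal (1 / ‖z‖ ^ 2) ≤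
      ∫⁻ z in ann 1 R, ENNReal.ofReal (Real.tanh (φ z) / ‖z‖ ^ 2) := by
  have hO := isOpen_ann 1 R
  have hm := hO.measurableSet
  obtain ⟨hWo, -⟩ := inv_lemma hO H.smooth H.inj (fun z hz => H.det_ne hz)
  have hψd : DifferentiableOn ℂ ψ (h '' ann 1 R) := fun p hp => by
    obtain ⟨d, -, hd⟩ := hψ p hp
    exact hd.differentiableAt.differentiableWithinAt
  have hψc : ContDiffOn ℝ 1 ψ (h '' ann 1 R) := (hψd.contDiffOn hWo).restrict_scalars ℝ
  let κ : ℂ → ℂ := fun z => ψ (h z)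
  have hκ : ContDiffOn ℝ 1 κ (ann 1 R) := hψc.comp H.smooth (mapsTo_image _ _)
  have iκ : InjOn κ (ann 1 R) := iψ.comp H.inj (mapsTo_image _ _)
  have sκ : κ '' ann 1 R = ann rs 1 := by rw [← sψ, image_image]
  have hκd : ∀ z ∈ ann 1 R, ∃ m : ℂ, m ≠ 0 ∧ ∀ v, fderiv ℝ κ z v =
      m * (Real.sinh (φ z) * (v / z).re + Real.cosh (φ z) * (v / z).im * I) := by
    intro z hz
    obtain ⟨d, hd, hd'⟩ := hψ _ (mem_image_of_mem h hz)
    have hhd : HasFDerivAt h (fderiv ℝ h z) z :=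
      ((H.smooth.differentiableOn one_ne_zero).differentiableAt (hO.mem_nhds hz)).hasFDerivAt
    have := ((hd'.hasFDerivAt.restrictScalars ℝ).comp z hhd).fderiv
    refine ⟨d * e z, mul_ne_zero hd (norm_ne_zero_iff.1 (by rw [H.unit]; exact one_ne_zero)),
      fun v => ?_⟩
    have e3 : fderiv ℝ κ z = _ := this
    rw [e3]
    simp [H.der z hz]
    ring
  have hdet : ∀ z ∈ ann 1 R, (fderiv ℝ κ z).det ≠ 0 := by
    intro z hz
    obtain ⟨m, hm0, hm'⟩ := hκd z hz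
    have hz0 := ann_ne zero_le_one hz
    rw [det_aux _ _ _ _ _ hz0 hm']
    have := Real.sinh_pos_iff.2 (H.pos z hz)
    have := Real.cosh_pos (φ z)
    have := norm_pos_iff.2 hz0
    have := norm_pos_iff.2 hm0
    positivity
  obtain ⟨-, hχ⟩ := inv_lemma hO hκ iκ hdet
  set χ := invFunOn κ (ann 1 R) with hχ_def
  have mχ : MapsTo χ (κ '' ann 1 R) (ann 1 R) := fun w hw => invFunOn_mem hw
  have k1 : ∀ z ∈ ann 1 R, χ (κ z) = z := fun z hz => iκ.leftInvOn_invFunOn hz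
  have k2 : ∀ w ∈ κ '' ann 1 R, κ (χ w) = w := fun w hw => invFunOn_eq hw
  have mκ : MapsTo κ (ann 1 R) (κ '' ann 1 R) := mapsTo_image _ _
  rw [sκ] at hχ mχ k2 mκ
  refine (wind hrs zero_le_one hχ mχ hκ.continuousOn mκ k2).trans (le_of_eq ?_)
  have hκd' : ∀ z ∈ ann 1 R, HasFDerivAt κ (fderiv ℝ κ z) z := fun z hz =>
    ((hκ.differentiableOn one_ne_zero).differentiableAt (hO.mem_nhds hz)).hasFDerivAt
  rw [← sκ, lintegral_image_eq_lintegral_abs_det_fderiv_mul volume hm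
    (fun z hz => (hκd' z hz).hasFDerivWithinAt) iκ]
  refine setLIntegral_congr_fun hm (fun z hz => ?_)
  rw [← ENNReal.ofReal_mul (abs_nonneg _)]
  congr 1
  obtain ⟨m, hm0, hm'⟩ := hκd z hz
  have hz0 := ann_ne zero_le_one hz
  have hS := Real.sinh_pos_iff.2 (H.pos z hz)
  have hC := Real.cosh_pos (φ z)
  have hzn := norm_pos_iff.2 hz0
  have hmn := norm_pos_iff.2 hm0
  have hχd : HasFDerivAt χ (fderiv ℝ χ (κ z)) (κ z) :=
    ((hχ.differentiableOn one_ne_zero).differentiableAt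
      ((isOpen_ann rs 1).mem_nhds (mκ hz))).hasFDerivAt
  have hid : (fderiv ℝ κ z).comp (fderiv ℝ χ (κ z)) = ContinuousLinearMap.id ℝ ℂ := by
    have a1 : HasFDerivAt κ (fderiv ℝ κ z) (χ (κ z)) := by rw [k1 z hz]; exact hκd' z hz
    refine (a1.comp _ hχd).unique ((hasFDerivAt_id _).congr_of_eventuallyEq ?_)
    filter_upwards [(isOpen_ann rs 1).mem_nhds (mκ hz)] with x hx
    exact k2 x hx
  have him : ∀ v : ℂ, (fderiv ℝ χ (κ z) v / z).im = (v / m).im / Real.cosh (φ z) := by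
    intro v
    have a2 := congrArg (fun D : ℂ →L[ℝ] ℂ => D v) hid
    simp only [ContinuousLinearMap.comp_apply, ContinuousLinearMap.id_apply, hm'] at a2
    rw [eq_div_iff hC.ne']
    nth_rewrite 2 [← a2]
    rw [mul_div_cancel_left₀ _ hm0]
    simp [-ofReal_cosh, -ofReal_sinh]
    ring
  rw [det_aux _ _ _ _ _ hz0 hm', abs_of_pos (by positivity), gradArg, k1 z hz, him, him,
    Real.tanh_eq_sinh_div_cosh, ← normSq_eq_norm_sq m]
  have hn : normSq m ≠ 0 := by simpa using hm0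
  simp only [div_im, one_re, one_im, I_re, I_im]
  field_simp
  simp only [normSq_apply]
  ring

end Pool.Agent.H611Z.Ring
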