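import Pool.Agent.H611Z.Ring.Strict

/-! The counterexample to the modulus bound for energy-minimal diffeomorphisms. -/

set_option autoImplicit false

namespace Pool.Agent.H611Z.Ring

open Complex Set Filter Metric Topology Function MeasureTheory
open scoped ENNReal NNReal ComplexConjugate

theorem exp_mem_ann {w : ℂ} : exp w ∈ ann 1 (Real.exp 1) ↔ 0 < w.re ∧ w.re < 1 := by
  simp [ann, norm_exp]

theorem log_mem {z : ℂ} (hz : z ∈ ann 1 (Real.exp 1)) : 0 < (log z).re ∧ (log z).re < 1 := by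
  rw [← exp_mem_ann, exp_log (ann_ne zero_le_one hz)]
  exact hz

theorem abs_le_of_strip {w : ℂ} (h : 0 < w.re ∧ w.re < 1) : |w.re| ≤ 1 := by
  rw [abs_le]
  constructor <;> linarith [h.1, h.2]

theorem Ph_pos {w : ℂ} (h : 0 < w.re ∧ w.re < 1) : 0 < (Ph w).re ∧ (Ph w).re ≤ 2 := by
  have := Ph_re_close h.1 h.2
  rw [abs_le] at this
  constructor <;> linarith [this.1, this.2, h.1, h.2]

theorem ph_eq {z : ℂ} (hz : z ≠ 0) : ph z = (Ph (log z)).re := by
  rw [← ph_exp, exp_log hz]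

section
variable {F : ℂ → ℂ} (hF : ∀ w, HasDerivAt F (exp (Ph w)) w)
  (hF' : ∀ w, F (w + Real.pi * I) = -F w)

/-- The map on the annulus. -/
noncomputable def hh (F : ℂ → ℂ) (z : ℂ) : ℂ := HH F (log z)

include hF' in
theorem hh_exp (w : ℂ) : hh F (exp w) = HH F w := HH_per hF' (exp_log (exp_ne_zero w))

include hF hF' in
theorem hopf : Hopf (Real.exp 1) (hh F) ph (fun z => exp ((Ph (log z)).im * I)) := by
  have hP : ∀ z : ℂ, z ≠ 0 → HasDerivAt (fun q => F (log q)) (exp (Ph (log z)) / z) z :=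
    fun z hz => hasDerivAt_comp_log hz (hF _) (by
      filter_upwards [eventually_ne_nhds hz] with q hq a ha
      exact F_per hF' (by rw [ha, exp_log hq]))
  have hQ : ∀ z : ℂ, z ≠ 0 → HasDerivAt (fun q => F (-log q)) (-exp (-Ph (log z)) / z) z := by
    intro z hz
    have h2 : HasDerivAt (fun x => F (-x)) (-exp (-Ph (log z))) (log z) := by
      have := (hF (-log z)).comp (log z) (hasDerivAt_neg _)
      rw [Ph_neg] at this
      exact this.congr_deriv (by ring)
    exact hasDerivAt_comp_log (f := fun x => F (-x)) hz h2 (by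
      filter_upwards [eventually_ne_nhds hz] with q hq a ha
      exact F_per hF' (by rw [exp_neg, exp_neg, ha, exp_log hq]))
  have hO := isOpen_ann 1 (Real.exp 1)
  refine ⟨?_, ?_, fun z => by simp, fun z hz => ?_, fun z hz v => ?_⟩
  · have c1 : ContDiffOn ℝ 1 (fun q => F (log q)) (ann 1 (Real.exp 1)) :=
      (DifferentiableOn.contDiffOn (fun z hz =>
        (hP z (ann_ne zero_le_one hz)).differentiableAt.differentiableWithinAt) hO).restrict_scalars ℝ
    have c2 : ContDiffOn ℝ 1 (fun q => F (-log q)) (ann 1 (Real.exp 1)) :=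
      (DifferentiableOn.contDiffOn (fun z hz =>
        (hQ z (ann_ne zero_le_one hz)).differentiableAt.differentiableWithinAt) hO).restrict_scalars ℝ
    exact (c1.add (conjCLE.contDiff.comp_contDiffOn c2)).div_const 2
  · intro z1 h1 z2 h2 e
    have a1 := log_mem h1
    have a2 := log_mem h2
    rw [hh, hh, ← exp_LL hF hF' (abs_le_of_strip a1), ← exp_LL hF hF' (abs_le_of_strip a2),
      exp_eq_exp_iff_exists_int] at e
    obtain ⟨n, e⟩ := e
    rw [← LL_add hF'] at e
    have := LL_inj hF hF' a1 (by simpa using a2) e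
    rw [← exp_log (ann_ne zero_le_one h1), this, exp_add, exp_int_mul_two_pi_mul_I, mul_one,
      exp_log (ann_ne zero_le_one h2)]
  · rw [ph_eq (ann_ne zero_le_one hz)]
    exact (Ph_pos (log_mem hz)).1
  · have hz0 := ann_ne zero_le_one hz
    obtain ⟨D, hD, e⟩ := fderiv_half (hP z hz0) (hQ z hz0)
    have : fderiv ℝ (hh F) z = D := hD.fderiv
    rw [this, e, ph_eq hz0, ← der_alg]
    congr 2
    · ring
    · congr 1
      ring

include hF hF' in
theorem norm_hh {z : ℂ} (hz : z ∈ ann 1 (Real.exp 1)) : 95 / 100 ≤ ‖hh F z‖ ∧ ‖hh F z‖ ≤ 3 := by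
  have h := (KK_slit hF hF' (abs_le_of_strip (log_mem hz))).2
  have e0 : (-(((log z).im : ℂ) * I)).re = 0 := by simp
  rwa [KK, norm_mul, norm_exp, e0, Real.exp_zero, one_mul] at h

include hF hF' in
theorem preimage_eq : exp ⁻¹' (hh F '' ann 1 (Real.exp 1)) =
    LL F '' {w : ℂ | 0 < w.re ∧ w.re < 1} := by
  ext u
  constructor
  · rintro ⟨z, hz, e⟩
    have a1 := log_mem hz
    rw [hh, ← exp_LL hF hF' (abs_le_of_strip a1), eq_comm, exp_eq_exp_iff_exists_int] at e
    obtain ⟨n, e⟩ := e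
    exact ⟨log z + n * (2 * Real.pi * I), by simpa using a1, by rw [LL_add hF', e]⟩
  · rintro ⟨w, hw, rfl⟩
    exact ⟨exp w, exp_mem_ann.2 hw, by rw [hh_exp hF', exp_LL hF hF' (abs_le_of_strip hw)]⟩

include hF hF' in
theorem sc_image : IsSimplyConnected (LL F '' {w : ℂ | 0 < w.re ∧ w.re < 1}) := by
  set S := {w : ℂ | 0 < w.re ∧ w.re < 1} with hS
  have hSo : IsOpen S := (isOpen_lt continuous_const continuous_re).inter
    (isOpen_lt continuous_re continuous_const)
  have hSc : Convex ℝ S := (convex_Ioo (0 : ℝ) 1).linear_preimage reLm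
  have hc : ContDiffOn ℝ 1 (LL F) S := fun w hw =>
    (LL_smooth hF hF' (abs_le_of_strip hw)).contDiffWithinAt
  have hi := LL_inj hF hF'
  obtain ⟨-, hk⟩ := inv_lemma hSo hc hi (fun w hw => by
    rw [det_aux _ _ 1 _ _ one_ne_zero (fun v => by rw [div_one]; exact LL_der hF hF' hw.1 hw.2 v)]
    have a1 := Real.sinh_pos_iff.2 (Ph_pos hw).1
    have a2 := Real.cosh_pos (Ph w).re
    have a3 := norm_pos_iff.2 (div_ne_zero (exp_ne_zero (((Ph w).im - w.im : ℝ) * I))
      (slitPlane_ne_zero (KK_slit hF hF' (abs_le_of_strip hw)).1))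
    exact (div_pos (mul_pos (mul_pos (pow_pos a3 2) a1) a2) (by simp)).ne')
  let e : (LL F '' S) ≃ₜ S :=
    { toFun := fun u => ⟨invFunOn (LL F) S u, invFunOn_mem u.2⟩
      invFun := fun w => ⟨LL F w, mem_image_of_mem _ w.2⟩
      left_inv := fun u => Subtype.ext (invFunOn_eq u.2)
      right_inv := fun w => Subtype.ext (hi.leftInvOn_invFunOn w.2)
      continuous_toFun := hk.continuousOn.domRestrict.subtype_mk _
      continuous_invFun := hc.continuousOn.domRestrict.subtype_mk _ }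
  have := hSc.contractibleSpace ⟨1 / 2, by simp [hS]; norm_num⟩
  have := e.contractibleSpace
  exact SimplyConnectedSpace.ofContractible _

include hF hF' in
theorem fin_energy : ∫⁻ z in ann 1 (Real.exp 1),
    ENNReal.ofReal (‖fderiv ℝ (hh F) z 1‖ ^ 2 + ‖fderiv ℝ (hh F) z I‖ ^ 2) < ⊤ := by
  have hb : Bornology.IsBounded (ann 1 (Real.exp 1)) :=
    (isBounded_ball (x := (0 : ℂ)) (r := Real.exp 1)).subset (fun z hz => by simpa using hz.2)
  refine lt_of_le_of_lt (setLIntegral_mono' (g := fun _ => ENNReal.ofReal 33)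
    (isOpen_ann _ _).measurableSet (fun z hz => ENNReal.ofReal_le_ofReal ?_)) ?_
  · rw [(hopf hF hF').energy hz]
    have h1 : 1 ≤ ‖z‖ ^ 2 := one_le_pow₀ hz.1.le
    have h2 := Ph_pos (log_mem hz)
    rw [← ph_eq (ann_ne zero_le_one hz)] at h2
    have h3 := (abs_sinh_le_cosh (ph z)).trans (cosh_le_four (by rw [abs_of_pos h2.1]; exact h2.2))
    have h4 : Real.sinh (ph z) ^ 2 ≤ 16 := by
      rw [← sq_abs]
      nlinarith [abs_nonneg (Real.sinh (ph z))]
    rw [← add_div, div_le_iff₀ (by linarith)]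
    linarith
  · rw [setLIntegral_const]
    exact ENNReal.mul_lt_top ENNReal.ofReal_lt_top hb.measure_lt_top

end

/-- The counterexample. -/
theorem main : ∃ (h ψ : ℂ → ℂ) (rs : ℝ) (φ : ℂ → ℝ) (e : ℂ → ℂ), Hopf (Real.exp 1) h φ e ∧
    Bornology.IsBounded (h '' ann 1 (Real.exp 1)) ∧
    ∫⁻ z in ann 1 (Real.exp 1), ENNReal.ofReal (‖fderiv ℝ h z 1‖ ^ 2 + ‖fderiv ℝ h z I‖ ^ 2) < ⊤ ∧
    0 < rs ∧ rs < 1 ∧ DifferentiableOn ℂ ψ (h '' ann 1 (Real.exp 1)) ∧
    InjOn ψ (h '' ann 1 (Real.exp 1)) ∧ ψ '' (h '' ann 1 (Real.exp 1)) = ann rs 1 ∧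
    -Real.log rs < Real.log (Real.cosh 1) := by
  obtain ⟨F, hF, hF'⟩ := exists_prim
  have H := hopf hF hF'
  obtain ⟨hWo, -⟩ := inv_lemma (isOpen_ann _ _) H.smooth H.inj (fun z hz => H.det_ne hz)
  obtain ⟨rs, ψ, h0, h1, hψ, iψ, sψ⟩ := uniformise hWo
    (by rintro ⟨z, hz, e⟩; have := (norm_hh hF hF' hz).1; rw [e] at this; norm_num at this)
    (by rw [preimage_eq hF hF']; exact sc_image hF hF')
    (by
      intro e
      obtain ⟨z, hz, e'⟩ : (2 : ℂ) ∈ exp ⁻¹' (hh F '' ann 1 (Real.exp 1)) := e ▸ mem_univ _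
      have := (norm_hh hF hF' hz).2
      rw [e', norm_exp] at this
      simp only [re_ofNat] at this
      linarith [Real.add_one_lt_exp (x := 2) two_ne_zero])
  have hmod := (H.modulus h0 hψ iψ sψ).trans_lt strict_bound
  have hδ : ∀ δ : ℝ, 0 < δ → δ ≤ 1 → rs ≤ δ → -Real.log δ < Real.log (Real.cosh 1) := by
    intro δ a0 a1 a2
    have hsub : ann δ 1 ⊆ ann rs 1 := fun z hz => ⟨a2.trans_lt hz.1, hz.2⟩
    have := (lintegral_mono_set hsub).trans_lt hmod
    rw [lint_inv_sq a0 a1, ENNReal.ofReal_lt_ofReal_iff', Real.log_one, zero_sub] at this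
    exact lt_of_mul_lt_mul_left this.1 (by positivity)
  have hrs : 0 < rs := by
    refine h0.lt_of_ne (fun e => ?_)
    have := hδ (Real.cosh 1)⁻¹ (by positivity) (inv_le_one_of_one_le₀ (Real.one_le_cosh 1))
      (by rw [← e]; positivity)
    simp at this
  refine ⟨hh F, ψ, rs, _, _, H, ?_, fin_energy hF hF', hrs, h1, fun p hp => ?_, iψ, sψ,
    hδ rs hrs h1.le le_rfl⟩
  · refine (isBounded_closedBall (x := (0 : ℂ)) (r := 3)).subset ?_
    rintro _ ⟨z, hz, rfl⟩
    simpa using (norm_hh hF hF' hz).2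
  · obtain ⟨d, -, hd⟩ := hψ p hp
    exact hd.differentiableAt.differentiableWithinAt

end Pool.Agent.H611Z.Ring
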