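import Pool.Agent.Helper202.Riemann

/-! Uniformisation of ring domains whose logarithmic cover is simply connected. -/

set_option autoImplicit false

namespace Pool.Agent.H611Z.Ring

open Complex Set Filter Metric Topology Function
open Pool.Agent.Helper202.Riemann

theorem disc_rot {T Ti : ℂ → ℂ} (hT : DifferentiableOn ℂ T (ball 0 1))
    (hTi : DifferentiableOn ℂ Ti (ball 0 1)) (mT : MapsTo T (ball 0 1) (ball 0 1))
    (mTi : MapsTo Ti (ball 0 1) (ball 0 1)) (h1 : ∀ z ∈ ball (0 : ℂ) 1, Ti (T z) = z) :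
    ∃ lam : ℂ, ‖lam‖ = 1 ∧ ∀ z ∈ ball (0 : ℂ) 1, bl (T 0) (T z) = lam * z := by
  have h0 : (0 : ℂ) ∈ ball (0 : ℂ) 1 := by simp
  have ha : ‖T 0‖ < 1 := by simpa using mT h0
  have ha' : ‖-T 0‖ < 1 := by simpa using ha
  have nb : ∀ {z : ℂ}, z ∈ ball (0 : ℂ) 1 → ‖z‖ < 1 := fun hz => by simpa using hz
  have hS : DifferentiableOn ℂ (fun z => bl (T 0) (T z)) (ball 0 1) := fun z hz =>
    (bl_hasDerivAt ha (nb (mT hz))).differentiableAt.comp_differentiableWithinAt z (hT z hz)
  have mS : MapsTo (fun z => bl (T 0) (T z)) (ball 0 1) (ball 0 1) := fun z hz => by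
    simpa using bl_norm_lt ha (nb (mT hz))
  have mB : MapsTo (bl (-T 0)) (ball 0 1) (ball 0 1) := fun z hz => by
    simpa using bl_norm_lt ha' (nb hz)
  have hSi : DifferentiableOn ℂ (fun z => Ti (bl (-T 0) z)) (ball 0 1) :=
    hTi.comp (fun z hz => (bl_hasDerivAt ha' (nb hz)).differentiableAt.differentiableWithinAt) mB
  have hinv : ∀ w : ℂ, ‖w‖ < 1 → bl (-T 0) (bl (T 0) w) = w := by
    intro w hw
    have e1 := bl_den_ne ha hw
    have e2 := bl_den_ne ha' (bl_norm_lt ha hw)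
    have e3 := bl_den_ne ha ha
    have e4 : bl (T 0) w * (1 - (starRingEnd ℂ) (T 0) * w) = w - T 0 := by
      rw [bl, div_mul_cancel₀ _ e1]
    rw [bl, div_eq_iff e2, map_neg]
    linear_combination e4
  have s0 : bl (T 0) (T 0) = 0 := bl_self _
  have hle : ∀ z : ℂ, ‖z‖ < 1 → ‖bl (T 0) (T z)‖ = ‖z‖ := by
    intro z hz
    have hz' : z ∈ ball (0 : ℂ) 1 := by simpa using hz
    apply le_antisymm
    · exact norm_le_norm_of_mapsTo_ball hS (mS.mono_right ball_subset_closedBall) s0 hz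
    · have := norm_le_norm_of_mapsTo_ball hSi
        ((mTi.comp mB).mono_right ball_subset_closedBall)
        (by simp only [bl_zero, neg_neg]; exact h1 0 h0) (nb (mS hz'))
      simp only at this
      rwa [hinv _ (nb (mT hz')), h1 z hz'] at this
  have hh : (1 / 2 : ℂ) ∈ ball (0 : ℂ) 1 := by simp; norm_num
  have hds : ‖dslope (fun z => bl (T 0) (T z)) 0 (1 / 2)‖ = 1 / 1 := by
    rw [dslope_of_ne _ (by norm_num), slope_def_field]
    simp only [s0, sub_zero, norm_div]
    rw [hle _ (nb hh)]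
    norm_num
  have := affine_of_mapsTo_ball_of_norm_dslope_eq_div hS
    (by simp only [s0]; exact mS.mono_right ball_subset_closedBall) hh hds
  refine ⟨_, hds.trans (by norm_num), fun z hz => ?_⟩
  have e := this hz
  simp only [s0, zero_add, sub_zero, smul_eq_mul] at e
  rw [e, mul_comm]

theorem cayley {ξ : ℂ} (hξ : ‖ξ‖ = 1) :
    (∀ z ∈ ball (0 : ℂ) 1, ∃ d : ℂ, d ≠ 0 ∧
      HasDerivAt (fun z => I * (ξ + z) / (ξ - z)) d z) ∧
    BijOn (fun z => I * (ξ + z) / (ξ - z)) (ball 0 1) {y : ℂ | 0 < y.im} := by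
  have hne : ∀ z ∈ ball (0 : ℂ) 1, ξ - z ≠ 0 := by
    intro z hz e
    have : z = ξ := by linear_combination -e
    simp [this, hξ] at hz
  have hξ0 : ξ ≠ 0 := by rintro rfl; simp at hξ
  have hn : normSq ξ = 1 := by rw [normSq_eq_norm_sq, hξ]; norm_num
  refine ⟨fun z hz => ⟨I * (2 * ξ) / (ξ - z) ^ 2, by simp [hξ0, hne z hz], ?_⟩, ?_, ?_, ?_⟩
  · have := (((hasDerivAt_id z).const_add ξ).const_mul I).div ((hasDerivAt_id z).const_sub ξ)
      (hne z hz)
    refine this.congr_deriv ?_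
    simp only [id]
    congr 1
    ring
  · intro z hz
    have hz' : normSq z < 1 := by
      rw [normSq_eq_norm_sq]
      have : ‖z‖ < 1 := by simpa using hz
      nlinarith [norm_nonneg z]
    have hp : 0 < normSq (ξ - z) := normSq_pos.2 (hne z hz)
    show 0 < (I * (ξ + z) / (ξ - z)).im
    rw [Complex.div_im, ← sub_div]
    apply div_pos _ hp
    simp only [normSq_apply] at hn hz'
    simp
    nlinarith
  · intro z hz w hw e
    simp only at e
    rw [div_eq_div_iff (hne z hz) (hne w hw)] at e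
    have : (2 * I * ξ) * (z - w) = 0 := by linear_combination e
    rcases mul_eq_zero.1 this with h | h
    · simp [hξ0] at h
    · linear_combination h
  · intro y hy
    have hy' : 0 < y.im := hy
    have hyI : y + I ≠ 0 := fun e => by
      have := congrArg Complex.im e
      simp at this
      linarith
    refine ⟨ξ * (y - I) / (y + I), ?_, ?_⟩
    · rw [mem_ball_zero_iff, norm_div, norm_mul, hξ, one_mul, div_lt_one (norm_pos_iff.2 hyI)]
      apply lt_of_pow_lt_pow_left₀ 2 (norm_nonneg _)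
      rw [← normSq_eq_norm_sq, ← normSq_eq_norm_sq]
      simp [normSq_apply]
      nlinarith
    · simp only
      have e1 : ξ - ξ * (y - I) / (y + I) = 2 * I * ξ / (y + I) := by field_simp; ring
      have e2 : ξ + ξ * (y - I) / (y + I) = 2 * y * ξ / (y + I) := by field_simp; ring
      rw [e1, e2]
      field_simp

theorem disc_normal {T Ti : ℂ → ℂ} (hT : DifferentiableOn ℂ T (ball 0 1))
    (hTi : DifferentiableOn ℂ Ti (ball 0 1)) (mT : MapsTo T (ball 0 1) (ball 0 1))
    (mTi : MapsTo Ti (ball 0 1) (ball 0 1)) (h1 : ∀ z ∈ ball (0 : ℂ) 1, Ti (T z) = z)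
    (hfix : ∀ z ∈ ball (0 : ℂ) 1, T z ≠ z) :
    ∃ ξ μ ν : ℂ, ‖ξ‖ = 1 ∧ ∀ z ∈ ball (0 : ℂ) 1,
      I * (ξ + T z) / (ξ - T z) = μ * (I * (ξ + z) / (ξ - z)) + ν := by
  obtain ⟨lam, hlam, hS⟩ := disc_rot hT hTi mT mTi h1
  set a := T 0 with ha_def
  have h0 : (0 : ℂ) ∈ ball (0 : ℂ) 1 := by simp
  have ha : ‖a‖ < 1 := by simpa using mT h0
  have ha0 : a ≠ 0 := hfix 0 h0
  have hl0 : lam ≠ 0 := by rintro rfl; simp at hlam
  set α := (starRingEnd ℂ) a * lam with hα
  have hα0 : α ≠ 0 := by simp [hα, ha0, hl0]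
  have hαn : ‖α‖ = ‖a‖ := by simp [hα, hlam]
  have hden : ∀ z : ℂ, ‖z‖ ≤ 1 → 1 + α * z ≠ 0 := by
    intro z hz e
    have : ‖α * z‖ = 1 := by rw [show α * z = -1 by linear_combination e]; simp
    rw [norm_mul, hαn] at this
    nlinarith [norm_nonneg a, norm_nonneg z]
  have hTz : ∀ z ∈ ball (0 : ℂ) 1, T z * (1 + α * z) = lam * z + a := by
    intro z hz
    have e := hS z hz
    rw [bl, div_eq_iff (bl_den_ne ha (by simpa using mT hz))] at e
    rw [hα]
    linear_combination e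
  obtain ⟨s, hs⟩ := IsAlgClosed.exists_pow_nat_eq ((1 - lam) ^ 2 + 4 * α * a) (n := 2) (by norm_num)
  have hroot : ∀ x : ℂ, x * (1 + α * x) = lam * x + a → 1 ≤ ‖x‖ := by
    intro x hx
    by_contra hlt
    push Not at hlt
    have hx' : x ∈ ball (0 : ℂ) 1 := by simpa using hlt
    apply hfix x hx'
    apply mul_right_cancel₀ (hden x hlt.le)
    rw [hTz x hx', hx]
  have r1 : (-(1 - lam) + s) / (2 * α) * (1 + α * ((-(1 - lam) + s) / (2 * α))) =
      lam * ((-(1 - lam) + s) / (2 * α)) + a := by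
    field_simp
    linear_combination hs
  have r2 : (-(1 - lam) - s) / (2 * α) * (1 + α * ((-(1 - lam) - s) / (2 * α))) =
      lam * ((-(1 - lam) - s) / (2 * α)) + a := by
    field_simp
    linear_combination hs
  have hprod : (-(1 - lam) + s) / (2 * α) * ((-(1 - lam) - s) / (2 * α)) = -a / α := by
    field_simp
    linear_combination -hs
  have n1 := hroot _ r1
  have n2 := hroot _ r2
  have n3 := congrArg norm hprod
  rw [norm_mul, norm_div (-a), norm_neg, hαn, div_self (norm_ne_zero_iff.2 ha0)] at n3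
  set ξ := (-(1 - lam) + s) / (2 * α) with hξ_def
  have hξ : ‖ξ‖ = 1 := by nlinarith
  clear_value ξ
  have hβ : 1 - (starRingEnd ℂ) a * ξ ≠ 0 := by
    intro e
    have : ‖(starRingEnd ℂ) a * ξ‖ = 1 := by
      rw [show (starRingEnd ℂ) a * ξ = 1 by linear_combination -e]; simp
    simp [hξ] at this
    linarith
  refine ⟨ξ, (1 + α * ξ) / (lam * (1 - (starRingEnd ℂ) a * ξ)),
    I * ((1 + α * ξ) / (lam * (1 - (starRingEnd ℂ) a * ξ)) - 1 -
      2 * ξ * α / (lam * (1 - (starRingEnd ℂ) a * ξ))), hξ, fun z hz => ?_⟩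
  have hz1 : ‖z‖ < 1 := by simpa using hz
  have hd := hden z hz1.le
  have hne : ξ - z ≠ 0 := by
    intro e
    have : z = ξ := by linear_combination -e
    simp [this, hξ] at hz
  have e1 : T z = (lam * z + a) / (1 + α * z) := by rw [eq_div_iff hd, hTz z hz]
  have e2 : ξ - T z = lam * (1 - (starRingEnd ℂ) a * ξ) * (ξ - z) / (1 + α * z) := by
    rw [eq_div_iff hd]
    have e5 := hTz z hz
    rw [hα] at r1 e5 ⊢
    linear_combination r1 - e5
  have e3 : ξ + T z = 2 * ξ - (ξ - T z) := by ring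
  rw [e3, e2]
  generalize 1 - (starRingEnd ℂ) a * ξ = β at hβ ⊢
  have e6 : 1 + α * ξ = (1 + α * z) + α * (ξ - z) := by ring
  have e7 : ξ + z = 2 * ξ - (ξ - z) := by ring
  rw [e6, e7]
  generalize 1 + α * z = δ at hd ⊢
  generalize ξ - z = η at hne ⊢
  field_simp
  ring

theorem affine_hp {μ ν : ℂ} (h1 : ∀ y : ℂ, 0 < y.im → 0 < (μ * y + ν).im)
    (h2 : ∀ y' : ℂ, 0 < y'.im → ∃ y : ℂ, 0 < y.im ∧ y' = μ * y + ν) :
    μ.im = 0 ∧ 0 < μ.re ∧ ν.im = 0 := by
  have a1 : μ.im = 0 := by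
    by_contra h
    have := h1 ⟨-(μ.re + ν.im) / μ.im, 1⟩ (by simp)
    simp at this
    field_simp at this
    linarith
  have a2 : 0 < μ.re := by
    obtain ⟨y, hy, e⟩ := h2 ⟨0, |ν.im| + 1⟩ (by positivity)
    have := congrArg Complex.im e
    simp [a1] at this
    by_contra h
    push Not at h
    nlinarith [le_abs_self ν.im]
  refine ⟨a1, a2, le_antisymm ?_ ?_⟩
  · by_contra h
    push Not at h
    obtain ⟨y, hy, e⟩ := h2 ⟨0, ν.im⟩ h
    have := congrArg Complex.im e
    simp [a1] at this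
    rcases this with h' | h' <;> linarith
  · by_contra h
    push Not at h
    have := h1 ⟨0, -ν.im / μ.re⟩ (by simp only; exact div_pos (by linarith) a2)
    simp [a1] at this
    field_simp at this
    linarith

theorem hp_normal (μ ν : ℝ) (hμ : 0 < μ) (hfix : ¬ (μ = 1 ∧ ν = 0)) :
    ∃ (rs : ℝ) (Λ : ℂ → ℂ) (σ : ℤ), 0 ≤ rs ∧ rs < 1 ∧ (σ = 1 ∨ σ = -1) ∧
      (∀ y : ℂ, 0 < y.im → ∃ d : ℂ, d ≠ 0 ∧ HasDerivAt Λ d y) ∧
      BijOn Λ {y : ℂ | 0 < y.im} {v : ℂ | rs < ‖exp v‖ ∧ ‖exp v‖ < 1} ∧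
      ∀ y : ℂ, 0 < y.im → Λ (μ * y + ν) = Λ y + σ * (2 * Real.pi * I) := by
  have hpi := Real.pi_pos
  have hsg : ∀ t : ℝ, t ≠ 0 → ∃ σ : ℤ, (σ = 1 ∨ σ = -1) ∧ t = σ * |t| := by
    intro t ht
    rcases lt_or_gt_of_ne ht with h | h
    · exact ⟨-1, Or.inr rfl, by simp [abs_of_neg h]⟩
    · exact ⟨1, Or.inl rfl, by simp [abs_of_pos h]⟩
  by_cases h1 : μ = 1
  · have hν : ν ≠ 0 := fun e => hfix ⟨h1, e⟩
    obtain ⟨σ, hσ, e⟩ := hsg ν hν
    have hab : 0 < |ν| := abs_pos.2 hν
    set κ : ℝ := 2 * Real.pi / |ν| with hκ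
    have hκp : 0 < κ := by positivity
    have hκ0 : (κ : ℂ) ≠ 0 := by exact_mod_cast hκp.ne'
    refine ⟨0, fun y => κ * I * y, σ, le_rfl, one_pos, hσ, fun y _ => ⟨κ * I, by simp [hκp.ne'],
      by simpa using (hasDerivAt_id y).const_mul (κ * I : ℂ)⟩, ⟨?_, ?_, ?_⟩, ?_⟩
    · intro y hy
      have hy' : 0 < y.im := hy
      refine ⟨norm_pos_iff.2 (exp_ne_zero _), ?_⟩
      rw [norm_exp, Real.exp_lt_one_iff]
      simp
      positivity
    · intro y _ z _ e
      exact mul_left_cancel₀ (mul_ne_zero hκ0 I_ne_zero) e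
    · intro v hv
      have := hv.2
      rw [norm_exp, Real.exp_lt_one_iff] at this
      refine ⟨-I * v / κ, ?_, ?_⟩
      · show 0 < (-I * v / κ).im
        rw [div_ofReal_im]
        apply div_pos _ hκp
        simp
        linarith
      · simp only
        field_simp
        simp
    · intro y _
      have : κ * ν = σ * (2 * Real.pi) := by
        rw [hκ]
        nth_rewrite 2 [e]
        field_simp
      have h2 : (κ : ℂ) * ν = σ * (2 * Real.pi) := by exact_mod_cast this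
      simp only [h1, ofReal_one, one_mul]
      linear_combination I * h2
  · have hl : Real.log μ ≠ 0 := Real.log_ne_zero_of_pos_of_ne_one hμ h1
    obtain ⟨σ, hσ, e⟩ := hsg _ hl
    have hab : 0 < |Real.log μ| := abs_pos.2 hl
    set κ : ℝ := 2 * Real.pi / |Real.log μ| with hκ
    have hκp : 0 < κ := by positivity
    have hκ0 : (κ : ℂ) ≠ 0 := by exact_mod_cast hκp.ne'
    set x0 : ℝ := ν / (1 - μ) with hx0
    have him : ∀ y : ℂ, (y - x0).im = y.im := by simp
    have hne : ∀ y : ℂ, 0 < y.im → y - x0 ≠ 0 := fun y hy e => by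
      have := him y
      rw [e] at this
      simp at this
      linarith
    refine ⟨Real.exp (-κ * Real.pi), fun y => κ * I * log (y - x0), σ, (Real.exp_pos _).le,
      by rw [Real.exp_lt_one_iff]; nlinarith, hσ, fun y hy => ⟨κ * I * (y - x0)⁻¹,
        by simp [hκp.ne', hne y hy], ?_⟩, ⟨?_, ?_, ?_⟩, ?_⟩
    · have := (((hasDerivAt_id y).sub_const (x0 : ℂ)).clog
        (Or.inr (by simpa using hy.ne'))).const_mul (κ * I : ℂ)
      simpa using this
    · intro y hy
      have hy' : 0 < y.im := hy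
      have a1 : 0 < arg (y - x0) := by
        have := arg_nonneg_iff.2 (show 0 ≤ (y - x0).im by rw [him]; exact hy'.le)
        refine lt_of_le_of_ne this (fun h => ?_)
        have := (arg_eq_zero_iff.1 h.symm).2
        rw [him] at this
        linarith
      have a2 : arg (y - x0) < Real.pi :=
        arg_lt_pi_iff.2 (Or.inr (by rw [him]; exact hy'.ne'))
      have hre : ((κ : ℂ) * I * log (y - x0)).re = -κ * arg (y - x0) := by
        simp [log_im]
      show _ < ‖exp _‖ ∧ ‖exp _‖ < 1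
      rw [norm_exp, hre, Real.exp_lt_one_iff, Real.exp_lt_exp]
      constructor <;> nlinarith
    · intro y hy z hz e
      have e' := mul_left_cancel₀ (mul_ne_zero hκ0 I_ne_zero) e
      have := congrArg exp e'
      rw [exp_log (hne y hy), exp_log (hne z hz)] at this
      linear_combination this
    · intro v hv
      obtain ⟨v1, v2⟩ := hv
      rw [norm_exp, Real.exp_lt_one_iff] at v2
      rw [norm_exp, Real.exp_lt_exp] at v1
      have hi : (-I * v / κ).im = -v.re / κ := by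
        rw [div_ofReal_im]; simp
      have i1 : 0 < -v.re / κ := div_pos (by linarith) hκp
      have i2 : -v.re / κ < Real.pi := by rw [div_lt_iff₀ hκp]; linarith
      refine ⟨x0 + exp (-I * v / κ), ?_, ?_⟩
      · show 0 < (x0 + exp (-I * v / κ)).im
        rw [add_im, ofReal_im, zero_add, exp_im, hi]
        exact mul_pos (Real.exp_pos _) (Real.sin_pos_of_pos_of_lt_pi i1 i2)
      · simp only [add_sub_cancel_left]
        rw [log_exp (by rw [hi]; linarith) (by rw [hi]; linarith)]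
        field_simp
        simp
    · intro y hy
      have h1' : (1 - μ : ℝ) ≠ 0 := fun e => h1 (by linarith)
      have e1 : (μ : ℂ) * y + ν - x0 = μ * (y - x0) := by
        have : x0 * (1 - μ) = ν := by rw [hx0]; field_simp
        have h2 : (x0 : ℂ) * (1 - μ) = ν := by exact_mod_cast this
        linear_combination -h2
      have : κ * Real.log μ = σ * (2 * Real.pi) := by
        rw [hκ]
        nth_rewrite 2 [e]
        field_simp
      have h2 : (κ : ℂ) * Real.log μ = σ * (2 * Real.pi) := by exact_mod_cast this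
      simp only
      rw [e1, log_ofReal_mul hμ (hne y hy)]
      linear_combination I * h2

/-- A function of the logarithm which does not depend on the branch is differentiable. -/
theorem hasDerivAt_comp_log {f : ℂ → ℂ} {p d : ℂ} (hp : p ≠ 0) (hf : HasDerivAt f d (log p))
    (hper : ∀ᶠ q in 𝓝 p, ∀ a : ℂ, exp a = q → f a = f (log q)) :
    HasDerivAt (fun q => f (log q)) (d / p) p := by
  have h1 : HasDerivAt (fun q => log (q / p) + log p) (1 / p) p := by
    have := (((hasDerivAt_id p).div_const p).clog (by simp [hp])).add_const (log p)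
    simpa [hp] using this
  have h2 : HasDerivAt f d (log (p / p) + log p) := by simpa [hp] using hf
  have h3 := h2.comp p h1
  refine (h3.congr_of_eventuallyEq ?_).congr_deriv (by ring)
  filter_upwards [hper, eventually_ne_nhds hp] with q hq hq0
  refine (hq _ ?_).symm
  rw [exp_add, exp_log hp, exp_log (div_ne_zero hq0 hp)]
  field_simp

theorem uniformise {W : Set ℂ} (hW : IsOpen W) (h0 : (0 : ℂ) ∉ W)
    (hsc : IsSimplyConnected (exp ⁻¹' W)) (hne : exp ⁻¹' W ≠ univ) :
    ∃ (rs : ℝ) (ψ : ℂ → ℂ), 0 ≤ rs ∧ rs < 1 ∧ (∀ p ∈ W, ∃ d : ℂ, d ≠ 0 ∧ HasDerivAt ψ d p) ∧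
      InjOn ψ W ∧ ψ '' W = {z : ℂ | rs < ‖z‖ ∧ ‖z‖ < 1} := by
  set U := exp ⁻¹' W with hU
  have hUo : IsOpen U := hW.preimage continuous_exp
  obtain ⟨a, ha⟩ := hsc.nonempty
  obtain ⟨g, φ, hg, bg, hg', -, hφ, mφ, hgφ, hφg⟩ := riemann_inv hUo hsc hne ha
  have hsh : ∀ (n : ℤ) (z : ℂ), z ∈ U → z + n * (2 * Real.pi * I) ∈ U := by
    intro n z hz
    show exp _ ∈ W
    rw [exp_add, exp_int_mul_two_pi_mul_I, mul_one]
    exact hz
  have hp1 : ∀ z ∈ U, z + 2 * Real.pi * I ∈ U := fun z hz => by simpa using hsh 1 z hz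
  have hm1 : ∀ z ∈ U, z - 2 * Real.pi * I ∈ U := fun z hz => by
    simpa [sub_eq_add_neg] using hsh (-1) z hz
  obtain ⟨ξ, μ, ν, hξ, hC⟩ := disc_normal (T := fun z => φ (g z + 2 * Real.pi * I))
    (Ti := fun z => φ (g z - 2 * Real.pi * I))
    (hφ.comp (hg.add_const _) (fun z hz => hp1 _ (bg.mapsTo hz)))
    (hφ.comp (hg.sub_const _) (fun z hz => hm1 _ (bg.mapsTo hz)))
    (fun z hz => mφ (hp1 _ (bg.mapsTo hz))) (fun z hz => mφ (hm1 _ (bg.mapsTo hz)))
    (fun z hz => by
      rw [hgφ _ (hp1 _ (bg.mapsTo hz)), add_sub_cancel_right, hφg z hz])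
    (fun z hz e => by
      have := congrArg g e
      rw [hgφ _ (hp1 _ (bg.mapsTo hz))] at this
      simp [Real.pi_ne_zero] at this)
  obtain ⟨hCd, hCb⟩ := cayley hξ
  let G : ℂ → ℂ := fun z => I * (ξ + φ z) / (ξ - φ z)
  have bφ : BijOn φ U (ball 0 1) :=
    ⟨mφ, fun z hz w hw e => by rw [← hgφ z hz, e, hgφ w hw],
      fun z hz => ⟨g z, bg.mapsTo hz, hφg z hz⟩⟩
  have bG : BijOn G U {y : ℂ | 0 < y.im} := hCb.comp bφ
  have hG : ∀ z ∈ U, G (z + 2 * Real.pi * I) = μ * G z + ν := by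
    intro z hz
    have := hC (φ z) (mφ hz)
    simp only [hgφ z hz] at this
    exact this
  have hGd : ∀ z ∈ U, ∃ d : ℂ, d ≠ 0 ∧ HasDerivAt G d z := by
    intro z hz
    obtain ⟨d, hd, hd'⟩ := hCd _ (mφ hz)
    have h1 := (hφ.differentiableAt (hUo.mem_nhds hz)).hasDerivAt
    have h2 := (hg.differentiableAt (isOpen_ball.mem_nhds (mφ hz))).hasDerivAt
    have h3 : HasDerivAt (g ∘ φ) 1 z := (hasDerivAt_id z).congr_of_eventuallyEq (by
      filter_upwards [hUo.mem_nhds hz] with w hw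
      exact hgφ w hw)
    have h4 := (h2.comp z h1).unique h3
    refine ⟨d * deriv φ z, mul_ne_zero hd (fun e => by simp [e] at h4), hd'.comp z h1⟩
  obtain ⟨m1, m2, m3⟩ := affine_hp (μ := μ) (ν := ν)
    (fun y hy => by
      obtain ⟨z, hz, rfl⟩ := bG.surjOn hy
      rw [← hG z hz]
      exact bG.mapsTo (hp1 z hz))
    (fun y hy => by
      obtain ⟨z, hz, rfl⟩ := bG.surjOn hy
      refine ⟨G (z - 2 * Real.pi * I), bG.mapsTo (hm1 z hz), ?_⟩
      rw [← hG _ (hm1 z hz), sub_add_cancel])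
  have eμ : μ = (μ.re : ℂ) := by apply Complex.ext <;> simp [m1]
  have eν : ν = (ν.re : ℂ) := by apply Complex.ext <;> simp [m3]
  obtain ⟨rs, Λ, σ, r0, r1, hσ, hΛd, bΛ, hΛ⟩ := hp_normal μ.re ν.re m2 (by
    rintro ⟨e1, e2⟩
    have := hG a ha
    rw [eμ, eν, e1, e2] at this
    simp only [ofReal_one, one_mul, ofReal_zero, add_zero] at this
    have := bG.injOn (hp1 a ha) ha this
    simp [Real.pi_ne_zero] at this)
  let F : ℂ → ℂ := fun z => Λ (G z)
  have bF : BijOn F U {v : ℂ | rs < ‖exp v‖ ∧ ‖exp v‖ < 1} := bΛ.comp bG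
  have hF : ∀ z ∈ U, F (z + 2 * Real.pi * I) = F z + σ * (2 * Real.pi * I) := by
    intro z hz
    simp only [F]
    rw [hG z hz, eμ, eν]
    exact hΛ _ (bG.mapsTo hz)
  have hFn : ∀ (n : ℤ), ∀ z ∈ U, F (z + n * (2 * Real.pi * I)) =
      F z + ((σ * n : ℤ) : ℂ) * (2 * Real.pi * I) := by
    intro n
    induction n using Int.induction_on with
    | zero => simp
    | succ n ih =>
      intro z hz
      have := hF _ (hsh n z hz)
      rw [ih z hz] at this
      push_cast at this ⊢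
      rw [show z + ((n : ℂ) + 1) * (2 * Real.pi * I) =
        z + n * (2 * Real.pi * I) + 2 * Real.pi * I by ring, this]
      ring
    | pred n ih =>
      intro z hz
      have := hF _ (hsh (-n - 1) z hz)
      have h2 := ih z hz
      push_cast at this h2 ⊢
      rw [show z + (-(n : ℂ) - 1) * (2 * Real.pi * I) + 2 * Real.pi * I =
        z + -(n : ℂ) * (2 * Real.pi * I) by ring, h2] at this
      linear_combination -this
  have hlog : ∀ p ∈ W, log p ∈ U := fun p hp => by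
    show exp _ ∈ W
    rwa [exp_log (fun e => h0 (e ▸ hp))]
  have hW0 : ∀ p ∈ W, p ≠ 0 := fun p hp e => h0 (e ▸ hp)
  have hsame : ∀ q ∈ W, ∀ b : ℂ, exp b = q → exp (F b) = exp (F (log q)) := by
    intro q hq b hb
    rw [← exp_log (hW0 q hq)] at hb
    obtain ⟨n, hn⟩ := exp_eq_exp_iff_exists_int.1 hb
    rw [hn, hFn n _ (hlog q hq), exp_add, exp_int_mul_two_pi_mul_I, mul_one]
  refine ⟨rs, fun p => exp (F (log p)), r0, r1, fun p hp => ?_, ?_, ?_⟩
  · obtain ⟨d1, hd1, h1⟩ := hGd _ (hlog p hp)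
    obtain ⟨d2, hd2, h2⟩ := hΛd _ (bG.mapsTo (hlog p hp))
    have h3 := (h2.comp _ h1).cexp
    refine ⟨_, ?_, hasDerivAt_comp_log (f := fun z => exp (F z)) (hW0 p hp) h3 ?_⟩
    · exact div_ne_zero (mul_ne_zero (exp_ne_zero _) (mul_ne_zero hd2 hd1)) (hW0 p hp)
    · filter_upwards [hW.mem_nhds hp] with q hq
      exact hsame q hq
  · intro p hp q hq e
    obtain ⟨n, hn⟩ := exp_eq_exp_iff_exists_int.1 e
    have h1 := hFn (σ * n) _ (hlog q hq)
    have h2 : σ * (σ * n) = n := by rcases hσ with rfl | rfl <;> ring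
    rw [h2, ← hn] at h1
    have h3 := bF.injOn (hsh _ _ (hlog q hq)) (hlog p hp) h1
    rw [← exp_log (hW0 p hp), ← h3, exp_add, exp_int_mul_two_pi_mul_I, mul_one,
      exp_log (hW0 q hq)]
  · apply Subset.antisymm
    · rintro _ ⟨p, hp, rfl⟩
      exact bF.mapsTo (hlog p hp)
    · intro z hz
      have hz0 : z ≠ 0 := by
        rintro rfl
        have := hz.1
        simp at this
        linarith
      obtain ⟨b, hb, e⟩ := bF.surjOn (show log z ∈ {v : ℂ | rs < ‖exp v‖ ∧ ‖exp v‖ < 1} by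
        simpa [exp_log hz0] using hz)
      refine ⟨exp b, hb, ?_⟩
      simp only
      rw [← hsame _ hb b rfl, e, exp_log hz0]

end Pool.Agent.H611Z.Ring
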