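import Pool.Agent.H611Z.Ring.Abs
import Pool.Agent.H611Z.Ring.Unif

/-! The perturbed critical Nitsche map. -/

set_option autoImplicit false

namespace Pool.Agent.H611Z.Ring

open Complex Set Filter Metric Topology Function MeasureTheory
open scoped ENNReal NNReal ComplexConjugate

theorem cosh_le_four {x : ℝ} (hx : |x| ≤ 2) : Real.cosh x ≤ 4 := by
  have h1 : Real.cosh x ≤ Real.cosh 2 := Real.cosh_le_cosh.2 (by simpa using hx)
  have h2 : Real.exp 2 = Real.exp 1 * Real.exp 1 := by rw [← Real.exp_add]; norm_num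
  have h3 := Real.exp_one_lt_d9
  have h4 := Real.exp_pos 1
  have h5 : Real.exp (-2) ≤ 1 / 3 := by
    rw [Real.exp_neg, one_div]
    exact inv_anti₀ (by norm_num) (by linarith [Real.add_one_le_exp 2])
  rw [Real.cosh_eq 2] at h1
  nlinarith

theorem cosh_le_two {x : ℝ} (hx : |x| ≤ 1) : Real.cosh x ≤ 2 := by
  have h1 := cosh_le_four (x := 2 * x) (by rw [abs_mul]; norm_num; linarith)
  rw [Real.cosh_two_mul, Real.sinh_sq] at h1
  nlinarith [Real.cosh_pos x]

theorem abs_sinh_le_cosh (x : ℝ) : |Real.sinh x| ≤ Real.cosh x := by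
  rw [abs_le]
  constructor
  · linarith [Real.sinh_add_cosh x, Real.exp_pos x]
  · linarith [Real.cosh_sub_sinh x, Real.exp_pos (-x)]

theorem sinh_lip {a b : ℝ} (ha : |a| ≤ 2) (hb : |b| ≤ 2) :
    |Real.sinh a - Real.sinh b| ≤ 4 * |a - b| := by
  have := (convex_Icc (-2 : ℝ) 2).norm_image_sub_le_of_norm_hasDerivWithin_le (C := 4)
    (f := Real.sinh) (f' := Real.cosh) (fun x _ => (Real.hasDerivAt_sinh x).hasDerivWithinAt)
    (fun x hx => by
      rw [Real.norm_eq_abs, abs_of_pos (Real.cosh_pos x)]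
      exact cosh_le_four (abs_le.2 hx)) (abs_le.1 hb) (abs_le.1 ha)
  simpa using this

theorem cosh_lip {a b : ℝ} (ha : |a| ≤ 2) (hb : |b| ≤ 2) :
    |Real.cosh a - Real.cosh b| ≤ 4 * |a - b| := by
  have := (convex_Icc (-2 : ℝ) 2).norm_image_sub_le_of_norm_hasDerivWithin_le (C := 4)
    (f := Real.cosh) (f' := Real.sinh) (fun x _ => (Real.hasDerivAt_cosh x).hasDerivWithinAt)
    (fun x hx => (abs_sinh_le_cosh x).trans (cosh_le_four (abs_le.2 hx)))
    (abs_le.1 hb) (abs_le.1 ha)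
  simpa using this

theorem norm_sinh_le (z : ℂ) : ‖Complex.sinh z‖ ≤ Real.cosh z.re := by
  have h : Complex.sinh z = (exp z - exp (-z)) / 2 := rfl
  rw [h, norm_div, Real.cosh_eq]
  have := norm_sub_le (exp z) (exp (-z))
  rw [norm_exp, norm_exp] at this
  simp only [neg_re, Complex.norm_ofNat] at this ⊢
  linarith

/-- Logarithm of the Gauss map. -/
noncomputable def Ph (w : ℂ) : ℂ := w + (1 / 1000 : ℝ) * Complex.sinh (2 * w)

theorem Ph_neg (w : ℂ) : Ph (-w) = -Ph w := by
  simp only [Ph, mul_neg, Complex.sinh_neg]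
  ring

theorem Ph_add (w : ℂ) : Ph (w + Real.pi * I) = Ph w + Real.pi * I := by
  have : Complex.sinh (2 * (w + Real.pi * I)) = Complex.sinh (2 * w) := by
    rw [show 2 * (w + Real.pi * I) = 2 * w + (2 * Real.pi) * I by ring, Complex.sinh_add,
      Complex.cosh_mul_I, Complex.sinh_mul_I]
    simp
  simp only [Ph, this]
  ring

theorem Ph_re (s θ : ℝ) :
    (Ph (s + θ * I)).re = s + 1 / 1000 * (Real.sinh (2 * s) * Real.cos (2 * θ)) := by
  have : Complex.sinh (2 * (s + θ * I)) = (Real.sinh (2 * s) * Real.cos (2 * θ) : ℝ) +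
      (Real.cosh (2 * s) * Real.sin (2 * θ) : ℝ) * I := by
    rw [show 2 * ((s : ℂ) + θ * I) = 2 * s + (2 * θ) * I by ring, Complex.sinh_add,
      Complex.cosh_mul_I, Complex.sinh_mul_I]
    push_cast
    ring
  rw [Ph, this]
  simp only [add_re, mul_re, ofReal_re, ofReal_im, I_re, I_im]
  ring

theorem Ph_close {w : ℂ} (hw : |w.re| ≤ 1) : ‖Ph w - w‖ ≤ 4 / 1000 := by
  have h1 := norm_sinh_le (2 * w)
  have h2 := cosh_le_four (x := (2 * w).re) (by simp [abs_mul]; linarith)
  simp only [Ph, add_sub_cancel_left, norm_mul, Complex.norm_real, Real.norm_eq_abs]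
  rw [abs_of_pos (by norm_num : (0 : ℝ) < 1 / 1000)]
  linarith

theorem Ph_re_close {w : ℂ} (h0 : 0 < w.re) (h1 : w.re < 1) :
    |(Ph w).re - w.re| ≤ 8 / 1000 * w.re := by
  have e := Ph_re w.re w.im
  rw [re_add_im] at e
  have h2 := sinh_lip (a := 2 * w.re) (b := 0) (by rw [abs_le]; constructor <;> linarith)
    (by simp)
  simp only [Real.sinh_zero, sub_zero] at h2
  rw [abs_of_pos (by linarith : 0 < 2 * w.re)] at h2
  rw [e, add_sub_cancel_left, abs_mul, abs_mul, abs_of_pos (by norm_num : (0 : ℝ) < 1 / 1000)]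
  have := Real.abs_cos_le_one (2 * w.im)
  nlinarith [abs_nonneg (Real.sinh (2 * w.re)), abs_nonneg (Real.cos (2 * w.im))]

theorem exists_prim : ∃ F : ℂ → ℂ, (∀ w, HasDerivAt F (exp (Ph w)) w) ∧
    ∀ w, F (w + Real.pi * I) = -F w := by
  have hd : Differentiable ℂ (fun w => exp (Ph w)) := by unfold Ph; fun_prop
  obtain ⟨G, hG⟩ := hd.isExactOn_univ
  have hG' : ∀ w, HasDerivAt G (exp (Ph w)) w := fun w => hG w (mem_univ w)
  have h1 : ∀ w, HasDerivAt (fun w => G (w + Real.pi * I) + G w) 0 w := by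
    intro w
    have := ((hG' (w + Real.pi * I)).comp_add_const w (Real.pi * I)).add (hG' w)
    refine this.congr_deriv ?_
    rw [Ph_add, exp_add, exp_pi_mul_I]
    ring
  have h2 := is_const_of_deriv_eq_zero (fun w => (h1 w).differentiableAt) (fun w => (h1 w).deriv)
  refine ⟨fun w => G w - (G (0 + Real.pi * I) + G 0) / 2, fun w => (hG' w).sub_const _,
    fun w => ?_⟩
  have := h2 w 0
  linear_combination this

section
variable {F : ℂ → ℂ} (hF : ∀ w, HasDerivAt F (exp (Ph w)) w)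
  (hF' : ∀ w, F (w + Real.pi * I) = -F w)

/-- The map in logarithmic coordinates. -/
noncomputable def HH (F : ℂ → ℂ) (w : ℂ) : ℂ := (F w + conj (F (-w))) / 2

/-- The map with the rotation removed. -/
noncomputable def KK (F : ℂ → ℂ) (w : ℂ) : ℂ := exp (-(w.im * I)) * HH F w

/-- The logarithm of the map. -/
noncomputable def LL (F : ℂ → ℂ) (w : ℂ) : ℂ := w.im * I + log (KK F w)

include hF' in
theorem F_per {a b : ℂ} (h : exp a = exp b) : F a = F b := by
  have hp : Periodic F (2 * Real.pi * I) := fun w => by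
    rw [show w + 2 * Real.pi * I = (w + Real.pi * I) + Real.pi * I by ring, hF', hF', neg_neg]
  obtain ⟨n, rfl⟩ := exp_eq_exp_iff_exists_int.1 h
  exact hp.int_mul n b

include hF' in
theorem HH_per {a b : ℂ} (h : exp a = exp b) : HH F a = HH F b := by
  rw [HH, HH, F_per hF' h, F_per hF' (a := -a) (b := -b) (by rw [exp_neg, exp_neg, h])]

include hF hF' in
theorem F_close {w : ℂ} (hw : |w.re| ≤ 1) : ‖F w - exp w‖ ≤ 48 / 1000 := by
  have hc : Convex ℝ {w : ℂ | w.re ∈ Icc (-1 : ℝ) 1} := (convex_Icc _ _).linear_preimage reLm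
  have := hc.norm_image_sub_le_of_norm_hasDerivWithin_le (C := 24 / 1000)
    (f := fun w => F w - exp w) (f' := fun w => exp (Ph w) - exp w)
    (fun x _ => ((hF x).sub (hasDerivAt_exp x)).hasDerivWithinAt)
    (fun x hx => by
      have hx' : |x.re| ≤ 1 := abs_le.2 hx
      have h1 := Ph_close hx'
      have h2 := norm_exp_sub_one_le (x := Ph x - x) (by linarith)
      have h3 : ‖exp x‖ ≤ 3 := by
        rw [norm_exp]
        exact (Real.exp_le_exp.2 hx.2).trans (by linarith [Real.exp_one_lt_d9])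
      rw [show exp (Ph x) - exp x = exp x * (exp (Ph x - x) - 1) by
        rw [mul_sub, ← exp_add]; simp, norm_mul]
      nlinarith [norm_nonneg (exp x), norm_nonneg (exp (Ph x - x) - 1)])
    (x := w) (y := w + Real.pi * I) (abs_le.1 hw) (by simpa using abs_le.1 hw)
  rw [hF', exp_add, exp_pi_mul_I, show -F w - exp w * -1 - (F w - exp w) =
    -2 * (F w - exp w) by ring, norm_mul] at this
  simp [abs_of_pos Real.pi_pos] at this
  linarith [Real.pi_lt_four]

include hF hF' in
theorem KK_close {w : ℂ} (hw : |w.re| ≤ 1) : ‖KK F w - Real.cosh w.re‖ ≤ 48 / 1000 := by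
  have h1 := F_close hF hF' hw
  have h2 := F_close hF hF' (w := -w) (by simpa using hw)
  have e : (Real.cosh w.re : ℂ) = exp (-(w.im * I)) * ((exp w + conj (exp (-w))) / 2) := by
    rw [← exp_conj, ofReal_cosh, mul_div_assoc', mul_add, ← exp_add, ← exp_add]
    have a1 : -(w.im * I) + w = w.re := by
      apply Complex.ext <;> simp
    have a2 : -(w.im * I) + conj (-w) = -w.re := by
      apply Complex.ext <;> simp
    rw [a1, a2]
    rfl
  rw [KK, e, ← mul_sub, norm_mul, norm_exp, HH, show (F w + conj (F (-w))) / 2 -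
    (exp w + conj (exp (-w))) / 2 = ((F w - exp w) + conj (F (-w) - exp (-w))) / 2 by
      rw [map_sub]; ring, norm_div]
  have := norm_add_le (F w - exp w) (conj (F (-w) - exp (-w)))
  rw [RCLike.norm_conj] at this
  have e0 : (-((w.im : ℂ) * I)).re = 0 := by simp
  rw [e0, Real.exp_zero, one_mul, Complex.norm_ofNat]
  linarith

theorem der_alg (P ω : ℂ) : (exp P * ω + conj (-exp (-P) * ω)) / 2 =
    exp (P.im * I) * (Real.sinh P.re * ω.re + Real.cosh P.re * ω.im * I) := by
  have e1 : exp P = exp (P.im * I) * Real.exp P.re := by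
    rw [ofReal_exp, ← exp_add, add_comm, re_add_im]
  have e2 : conj (exp (-P)) = exp (P.im * I) * Real.exp (-P.re) := by
    rw [ofReal_exp, ← exp_add, ← exp_conj]
    congr 1
    apply Complex.ext <;> simp
  have e3 : conj ω = ω.re - ω.im * I := by apply Complex.ext <;> simp
  rw [map_mul, map_neg, e2, e3, e1, Real.sinh_eq, Real.cosh_eq]
  nth_rewrite 1 [← re_add_im ω]
  push_cast
  ring

theorem fderiv_half {P Q : ℂ → ℂ} {p q z : ℂ} (hP : HasDerivAt P p z) (hQ : HasDerivAt Q q z) :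
    ∃ D : ℂ →L[ℝ] ℂ, HasFDerivAt (fun x => (P x + conj (Q x)) / 2) D z ∧
      ∀ v, D v = (p * v + conj (q * v)) / 2 := by
  have h1 := hP.hasFDerivAt.restrictScalars ℝ
  have h2 := conjCLE.hasFDerivAt.comp z (hQ.hasFDerivAt.restrictScalars ℝ)
  have h3 := (h1.add h2).const_mul (1 / 2 : ℂ)
  refine ⟨_, h3.congr_of_eventuallyEq (Eventually.of_forall fun x => ?_), fun v => ?_⟩
  · simp
    ring
  · simp
    ring

include hF in
theorem HH_der (w : ℂ) : ∃ D : ℂ →L[ℝ] ℂ, HasFDerivAt (HH F) D w ∧ ∀ v, D v =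
    exp ((Ph w).im * I) * (Real.sinh (Ph w).re * v.re + Real.cosh (Ph w).re * v.im * I) := by
  have h2 : HasDerivAt (fun x => F (-x)) (-exp (-Ph w)) w := by
    have := (hF (-w)).comp w (hasDerivAt_neg w)
    rw [Ph_neg] at this
    exact this.congr_deriv (by ring)
  obtain ⟨D, hD, e⟩ := fderiv_half (hF w) h2
  exact ⟨D, hD, fun v => by rw [e, der_alg]⟩

include hF in
theorem HH_smooth : ContDiff ℝ 1 (HH F) := by
  have h1 : ContDiff ℝ 1 F :=
    (Differentiable.contDiff (fun w => (hF w).differentiableAt) (n := 1)).restrict_scalars ℝ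
  exact (h1.add (conjCLE.contDiff.comp (h1.comp contDiff_neg))).div_const 2

include hF hF' in
theorem KK_slit {w : ℂ} (hw : |w.re| ≤ 1) : KK F w ∈ slitPlane ∧ 95 / 100 ≤ ‖KK F w‖ ∧
    ‖KK F w‖ ≤ 3 := by
  have h1 := KK_close hF hF' hw
  have h2 := (abs_re_le_norm (KK F w - Real.cosh w.re)).trans h1
  rw [sub_re, ofReal_re, abs_le] at h2
  have h3 := Real.one_le_cosh w.re
  have h4 := cosh_le_two hw
  refine ⟨Or.inl (by linarith), by linarith [re_le_norm (KK F w)], ?_⟩
  have := norm_add_le (KK F w - Real.cosh w.re) (Real.cosh w.re)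
  rw [sub_add_cancel, Complex.norm_real, Real.norm_eq_abs, abs_of_pos (Real.cosh_pos _)] at this
  linarith

include hF hF' in
theorem exp_LL {w : ℂ} (hw : |w.re| ≤ 1) : exp (LL F w) = HH F w := by
  rw [LL, exp_add, exp_log (slitPlane_ne_zero (KK_slit hF hF' hw).1), KK, ← mul_assoc, ← exp_add]
  simp

include hF' in
theorem LL_add (w : ℂ) (n : ℤ) :
    LL F (w + n * (2 * Real.pi * I)) = LL F w + n * (2 * Real.pi * I) := by
  have e1 : (((w + n * (2 * Real.pi * I)).im : ℝ) : ℂ) * I = w.im * I + n * (2 * Real.pi * I) := by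
    simp
    ring
  have e2 : KK F (w + n * (2 * Real.pi * I)) = KK F w := by
    rw [KK, KK, e1, HH_per hF' (b := w) (by rw [exp_add, exp_int_mul_two_pi_mul_I, mul_one]),
      neg_add, exp_add, exp_neg ((n : ℂ) * _), exp_int_mul_two_pi_mul_I]
    simp
  rw [LL, LL, e1, e2]
  ring

include hF hF' in
theorem LL_smooth {w : ℂ} (hw : |w.re| ≤ 1) : ContDiffAt ℝ 1 (LL F) w := by
  have h0 : ContDiff ℝ 1 (fun w : ℂ => (w.im : ℂ) * I) :=
    (ofRealCLM.contDiff.comp imCLM.contDiff).mul contDiff_const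
  have h1 : ContDiff ℝ 1 (KK F) := h0.neg.cexp.mul (HH_smooth hF)
  exact h0.contDiffAt.add
    (((contDiffAt_log (KK_slit hF hF' hw).1).restrict_scalars ℝ).comp w h1.contDiffAt)

include hF hF' in
theorem LL_der {w : ℂ} (h0 : 0 < w.re) (h1 : w.re < 1) (v : ℂ) : fderiv ℝ (LL F) w v =
    exp (((Ph w).im - w.im : ℝ) * I) / KK F w *
      (Real.sinh (Ph w).re * v.re + Real.cosh (Ph w).re * v.im * I) := by
  have hw : |w.re| ≤ 1 := by rw [abs_le]; constructor <;> linarith
  have hL := ((LL_smooth hF hF' hw).differentiableAt one_ne_zero).hasFDerivAt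
  obtain ⟨D, hD, e⟩ := HH_der hF w
  have h2 : HasFDerivAt (HH F) _ w := hL.cexp.congr_of_eventuallyEq (by
    have : ∀ᶠ x in 𝓝 w, x.re ∈ Ioo (0 : ℝ) 1 :=
      continuous_re.continuousAt.eventually_mem (Ioo_mem_nhds h0 h1)
    filter_upwards [this] with x hx
    exact (exp_LL hF hF' (by rw [abs_le]; constructor <;> linarith [hx.1, hx.2])).symm)
  have h3 := congrArg (fun D : ℂ →L[ℝ] ℂ => D v) (h2.unique hD)
  simp only [FunLike.coe_smul, Pi.smul_apply, smul_eq_mul, e] at h3
  have hK := slitPlane_ne_zero (KK_slit hF hF' hw).1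
  rw [LL, exp_add, exp_log hK] at h3
  have h4 : exp ((Ph w).im * I) = exp (w.im * I) * exp (((Ph w).im - w.im : ℝ) * I) := by
    rw [← exp_add]
    congr 1
    push_cast
    ring
  rw [h4] at h3
  apply mul_left_cancel₀ (mul_ne_zero (exp_ne_zero (w.im * I)) hK)
  rw [h3]
  field_simp

theorem quot_est {E K : ℂ} {a b c : ℝ} (hE : ‖E - 1‖ ≤ 8 / 1000) (hb : 0 ≤ b)
    (hab : |a - b| ≤ 32 / 1000 * b) (hc1 : 1 ≤ c) (hc2 : c ≤ 2) (hK : ‖K - c‖ ≤ 48 / 1000)
    (hK' : 95 / 100 ≤ ‖K‖) : ‖E / K * a - (b / c : ℝ)‖ ≤ 1 / 4 * (b / c) := by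
  have hK0 : K ≠ 0 := norm_pos_iff.1 (by linarith)
  have hc0 : (c : ℂ) ≠ 0 := by exact_mod_cast (by linarith : c ≠ 0)
  have e : E / K * a - (b / c : ℝ) =
      ((E - 1) * (a * c : ℝ) + ((a - b) * c : ℝ) - (K - c) * b) / (K * c) := by
    push_cast
    field_simp
    ring
  have ha : |a| ≤ 2 * b := by
    rw [abs_le] at hab ⊢
    constructor <;> linarith
  have h1 : ‖(E - 1) * (a * c : ℝ)‖ ≤ 32 / 1000 * b := by
    rw [norm_mul, Complex.norm_real, Real.norm_eq_abs, abs_mul, abs_of_pos (by linarith : 0 < c)]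
    have : |a| * c ≤ 4 * b := by nlinarith [abs_nonneg a]
    nlinarith [norm_nonneg (E - 1), mul_nonneg (abs_nonneg a) (by linarith : 0 ≤ c)]
  have h2 : ‖(((a - b) * c : ℝ) : ℂ)‖ ≤ 64 / 1000 * b := by
    rw [Complex.norm_real, Real.norm_eq_abs, abs_mul, abs_of_pos (by linarith : 0 < c)]
    nlinarith [abs_nonneg (a - b)]
  have h3 : ‖(K - c) * b‖ ≤ 48 / 1000 * b := by
    rw [norm_mul, Complex.norm_real, Real.norm_eq_abs, abs_of_nonneg hb]
    exact mul_le_mul_of_nonneg_right hK hb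
  have h4 := (norm_sub_le _ _).trans (add_le_add ((norm_add_le _ _).trans (add_le_add h1 h2)) h3)
  rw [e, norm_div, norm_mul, Complex.norm_real, Real.norm_eq_abs, abs_of_pos (by linarith : 0 < c),
    div_le_iff₀ (by positivity)]
  have : 1 / 4 * (b / c) * (‖K‖ * c) = 1 / 4 * b * ‖K‖ := by field_simp
  rw [this]
  nlinarith

include hF hF' in
theorem LL_est {w : ℂ} (h0 : 0 < w.re) (h1 : w.re < 1) :
    ‖fderiv ℝ (LL F) w 1 - (Real.sinh w.re / Real.cosh w.re : ℝ)‖ ≤
      1 / 4 * (Real.sinh w.re / Real.cosh w.re) ∧ ‖fderiv ℝ (LL F) w I - I‖ ≤ 1 / 4 := by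
  have hw : |w.re| ≤ 1 := by rw [abs_le]; constructor <;> linarith
  have a1 := Ph_close hw
  have a2 := Ph_re_close h0 h1
  have a3 : ‖exp (((Ph w).im - w.im : ℝ) * I) - 1‖ ≤ 8 / 1000 := by
    have b1 : ‖(((Ph w).im - w.im : ℝ) : ℂ) * I‖ ≤ 4 / 1000 := by
      rw [norm_mul, norm_I, mul_one, Complex.norm_real, Real.norm_eq_abs, ← sub_im]
      exact (abs_im_le_norm _).trans a1
    linarith [norm_exp_sub_one_le (b1.trans (by norm_num))]
  have a4 : |(Ph w).re| ≤ 2 := by
    rw [abs_le] at a2 ⊢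
    constructor <;> linarith
  have a5 : |w.re| ≤ 2 := by linarith
  have a6 := Real.self_le_sinh_iff.2 h0.le
  have a7 := Real.one_le_cosh w.re
  constructor
  · have := quot_est a3 (a := Real.sinh (Ph w).re) (b := Real.sinh w.re) (by linarith)
      ((sinh_lip a4 a5).trans (by linarith)) a7 (cosh_le_two hw) (KK_close hF hF' hw)
      (KK_slit hF hF' hw).2.1
    rw [LL_der hF hF' h0 h1]
    simpa using this
  · have := quot_est a3 (a := Real.cosh (Ph w).re) (b := Real.cosh w.re) (by linarith)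
      ((cosh_lip a4 a5).trans (by linarith)) a7 (cosh_le_two hw) (KK_close hF hF' hw)
      (KK_slit hF hF' hw).2.1
    rw [div_self (Real.cosh_pos _).ne'] at this
    rw [LL_der hF hF' h0 h1]
    have e : exp (((Ph w).im - w.im : ℝ) * I) / KK F w *
        (Real.sinh (Ph w).re * I.re + Real.cosh (Ph w).re * I.im * I) - I =
        (exp (((Ph w).im - w.im : ℝ) * I) / KK F w * Real.cosh (Ph w).re - (1 : ℝ)) * I := by
      simp only [I_re, I_im, ofReal_zero, ofReal_one]
      ring
    rw [e, norm_mul, norm_I]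
    linarith

include hF hF' in
theorem LL_inj : InjOn (LL F) {w : ℂ | 0 < w.re ∧ w.re < 1} := by
  have hd : ∀ w : ℂ, 0 < w.re → w.re < 1 → HasFDerivAt (LL F) (fderiv ℝ (LL F) w) w :=
    fun w h0 h1 => ((LL_smooth hF hF' (by rw [abs_le]; constructor <;> linarith)).differentiableAt
      one_ne_zero).hasFDerivAt
  have hlc : ∀ t : ℝ, HasDerivAt (fun t => Real.log (Real.cosh t))
      (Real.sinh t / Real.cosh t) t := fun t =>
    (Real.hasDerivAt_cosh t).log (Real.cosh_pos t).ne'
  have hs : ∀ s1 s2 θ : ℝ, 0 < s1 → s1 ≤ s2 → s2 < 1 →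
      ‖(LL F (s2 + θ * I) - Real.log (Real.cosh s2)) -
        (LL F (s1 + θ * I) - Real.log (Real.cosh s1))‖ ≤
        1 / 4 * (Real.log (Real.cosh s2) - Real.log (Real.cosh s1)) := by
    intro s1 s2 θ h1 h12 h2
    have hder : ∀ t ∈ Icc s1 s2, HasDerivAt (fun t : ℝ => (LL F (t + θ * I) -
        Real.log (Real.cosh t)) - (LL F (s1 + θ * I) - Real.log (Real.cosh s1)))
        (fderiv ℝ (LL F) (t + θ * I) 1 - (Real.sinh t / Real.cosh t : ℝ)) t := by
      intro t ht
      have a1 : HasDerivAt (fun t : ℝ => (t : ℂ) + θ * I) 1 t := by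
        simpa using ((hasDerivAt_id t).ofReal_comp).add_const ((θ : ℂ) * I)
      exact (((hd _ (by simp; linarith [ht.1]) (by simp; linarith [ht.2])).comp_hasDerivAt t
        a1).sub (hlc t).ofReal_comp).sub_const _
    exact image_norm_le_of_norm_deriv_right_le_deriv_boundary
      (fun t ht => (hder t ht).continuousAt.continuousWithinAt)
      (fun t ht => (hder t (Ico_subset_Icc_self ht)).hasDerivWithinAt)
      (B := fun t => 1 / 4 * (Real.log (Real.cosh t) - Real.log (Real.cosh s1))) (by simp)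
      (fun t => ((hlc t).sub_const _).const_mul _)
      (fun t ht => by
        have := (LL_est hF hF' (w := t + θ * I) (by simp; linarith [ht.1])
          (by simp; linarith [ht.2])).1
        simpa using this) (right_mem_Icc.2 h12)
  have hθ : ∀ s θ1 θ2 : ℝ, 0 < s → s < 1 →
      ‖(LL F (s + θ2 * I) - θ2 * I) - (LL F (s + θ1 * I) - θ1 * I)‖ ≤ 1 / 4 * |θ2 - θ1| := by
    intro s θ1 θ2 h0 h1
    have := convex_univ.norm_image_sub_le_of_norm_hasDerivWithin_le (C := 1 / 4)
      (f := fun t : ℝ => LL F (s + t * I) - t * I)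
      (f' := fun t : ℝ => fderiv ℝ (LL F) (s + t * I) I - I) (fun t _ => by
        have a0 : HasDerivAt (fun t : ℝ => (t : ℂ) * I) I t := by
          simpa using ((hasDerivAt_id t).ofReal_comp).mul_const I
        exact (((hd _ (by simpa using h0) (by simpa using h1)).comp_hasDerivAt t
          (a0.const_add (s : ℂ))).sub a0).hasDerivWithinAt)
      (fun t _ => (LL_est hF hF' (by simpa using h0) (by simpa using h1)).2)
      (mem_univ θ1) (mem_univ θ2)
    simpa using this
  have key : ∀ w1 w2 : ℂ, 0 < w1.re → w1.re ≤ w2.re → w2.re < 1 → LL F w1 = LL F w2 →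
      w1 = w2 := by
    intro w1 w2 h1 h12 h2 e
    have a1 := hs w1.re w2.re w1.im h1 h12 h2
    have a2 := hθ w2.re w1.im w2.im (by linarith) h2
    rw [re_add_im] at a1 a2
    set x := Real.log (Real.cosh w2.re) - Real.log (Real.cosh w1.re) with hx
    have hx0 : 0 ≤ x := by linarith [norm_nonneg ((LL F (w2.re + w1.im * I) -
      Real.log (Real.cosh w2.re)) - (LL F w1 - Real.log (Real.cosh w1.re)))]
    have a3 := (norm_add_le _ _).trans (add_le_add a1 a2)
    have a4 : (LL F (w2.re + w1.im * I) - Real.log (Real.cosh w2.re)) -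
        (LL F w1 - Real.log (Real.cosh w1.re)) + ((LL F w2 - w2.im * I) -
        (LL F (w2.re + w1.im * I) - w1.im * I)) = -((x : ℂ) + (w2.im - w1.im : ℝ) * I) := by
      rw [e, hx]
      push_cast
      ring
    rw [a4, norm_neg] at a3
    have b1 := (abs_re_le_norm _).trans a3
    have b2 := (abs_im_le_norm _).trans a3
    simp only [add_re, ofReal_re, mul_re, I_re, mul_zero, ofReal_im, I_im, mul_one, sub_self,
      add_zero, add_im, mul_im, zero_add] at b1 b2
    rw [abs_of_nonneg hx0] at b1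
    have c1 : |w2.im - w1.im| ≤ 0 := by linarith
    have c2 : x = 0 := by linarith [abs_nonneg (w2.im - w1.im)]
    have c3 : Real.cosh w2.re = Real.cosh w1.re :=
      Real.log_injOn_pos (Real.cosh_pos _) (Real.cosh_pos _) (by linarith)
    have c4 : |w2.re| ≤ |w1.re| := Real.cosh_le_cosh.1 c3.le
    rw [abs_of_pos h1, abs_of_pos (by linarith)] at c4
    apply Complex.ext
    · linarith
    · linarith [abs_nonpos_iff.1 c1]
  intro w1 h1 w2 h2 e
  rcases le_total w1.re w2.re with h | h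
  · exact key w1 w2 h1.1 h h2.2 e
  · exact (key w2 w1 h2.1 h h1.2 e.symm).symm

end

end Pool.Agent.H611Z.Ring
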