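import Pool.Agent.H611Z.Ring.Map

/-! The strict modulus estimate for the perturbed map. -/

set_option autoImplicit false

namespace Pool.Agent.H611Z.Ring

open Complex Set Filter Metric Topology Function MeasureTheory
open scoped ENNReal NNReal ComplexConjugate

/-- Real part of the logarithm of the Gauss map, on the annulus. -/
noncomputable def ph (z : ℂ) : ℝ := Real.log ‖z‖ + 1 / 1000 * ((z ^ 2 - (z ^ 2)⁻¹) / 2).re

theorem ph_exp (w : ℂ) : ph (exp w) = (Ph w).re := by
  have h : Complex.sinh (2 * w) = (exp w ^ 2 - (exp w ^ 2)⁻¹) / 2 := by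
    have : Complex.sinh (2 * w) = (exp (2 * w) - exp (-(2 * w))) / 2 := rfl
    rw [this, exp_neg, two_mul, exp_add, sq]
  rw [ph, Ph, h, norm_exp, Real.log_exp, add_re, re_ofReal_mul]

theorem continuousOn_ph {r R : ℝ} (hr : 0 ≤ r) : ContinuousOn ph (ann r R) := by
  have h0 : ∀ z ∈ ann r R, z ≠ 0 := fun z hz => ann_ne hr hz
  refine (continuous_norm.continuousOn.log (fun z hz => norm_ne_zero_iff.2 (h0 z hz))).add
    (continuousOn_const.mul (continuous_re.comp_continuousOn ?_))
  exact ((continuousOn_id.pow 2).sub ((continuousOn_id.pow 2).inv₀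
    (fun z hz => pow_ne_zero _ (h0 z hz)))).div_const 2

theorem sinh_le_mul_cosh {t : ℝ} (ht : 0 ≤ t) : Real.sinh t ≤ t * Real.cosh t := by
  rcases ht.eq_or_lt with rfl | ht
  · simp
  obtain ⟨c, hc, e⟩ := exists_hasDerivAt_eq_slope Real.sinh Real.cosh ht
    Real.continuous_sinh.continuousOn (fun x _ => Real.hasDerivAt_sinh x)
  have h1 : Real.cosh c ≤ Real.cosh t :=
    Real.cosh_le_cosh.2 (by rw [abs_of_pos hc.1, abs_of_pos ht]; exact hc.2.le)
  rw [e, Real.sinh_zero, sub_zero, sub_zero, div_le_iff₀ ht] at h1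
  linarith

theorem tanh_sub_eq (s t : ℝ) : Real.tanh (s + t) = Real.tanh s +
    Real.sinh t / (Real.cosh s * Real.cosh (s + t)) := by
  have h1 := Real.cosh_pos s
  have h2 := Real.cosh_pos (s + t)
  rw [Real.tanh_eq_sinh_div_cosh, Real.tanh_eq_sinh_div_cosh]
  field_simp
  rw [Real.sinh_add, Real.cosh_add]
  linear_combination (Real.sinh t) * Real.cosh_sq s

theorem tanh_lt {s t : ℝ} (ht : t < 0) (hst : 0 < s + t) :
    Real.tanh (s + t) < Real.tanh s + t / Real.cosh s ^ 2 := by
  have h1 := Real.cosh_pos s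
  have h2 := Real.cosh_pos (s + t)
  have h3 : Real.cosh (s + t) ≤ Real.cosh s :=
    Real.cosh_le_cosh.2 (by rw [abs_of_pos hst, abs_of_pos (by linarith)]; linarith)
  have h4 := Real.sinh_lt_self_iff.2 ht
  rw [tanh_sub_eq, add_lt_add_iff_left, div_lt_div_iff₀ (by positivity) (by positivity)]
  have : Real.sinh t * Real.cosh s < t * Real.cosh (s + t) := by nlinarith
  nlinarith

theorem tanh_le {s t : ℝ} (hs : 0 < s) (hst : 0 < s + t) :
    Real.tanh (s + t) ≤ Real.tanh s + t / Real.cosh s ^ 2 := by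
  rcases lt_or_ge t 0 with ht | ht
  · exact (tanh_lt ht hst).le
  have h1 := Real.cosh_pos s
  have h2 := Real.cosh_pos (s + t)
  have h4 := sinh_le_mul_cosh ht
  have h5 : Real.cosh s * Real.cosh t ≤ Real.cosh (s + t) := by
    rw [Real.cosh_add]
    have := mul_nonneg (Real.sinh_nonneg_iff.2 hs.le) (Real.sinh_nonneg_iff.2 ht)
    linarith
  rw [tanh_sub_eq, add_le_add_iff_left, div_le_div_iff₀ (by positivity) (by positivity)]
  have : Real.sinh t * Real.cosh s ≤ t * Real.cosh (s + t) := by nlinarith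
  nlinarith

theorem continuous_tanh' : Continuous Real.tanh := by
  have : Real.tanh = fun x => Real.sinh x / Real.cosh x := funext Real.tanh_eq_sinh_div_cosh
  rw [this]
  exact Real.continuous_sinh.div Real.continuous_cosh (fun x => (Real.cosh_pos x).ne')

theorem tanh_pos' {x : ℝ} (hx : 0 < x) : 0 < Real.tanh x := by
  rw [Real.tanh_eq_sinh_div_cosh]
  exact div_pos (Real.sinh_pos_iff.2 hx) (Real.cosh_pos x)

theorem circ_lt {s : ℝ} (h0 : 0 < s) (h1 : s < 1) :
    ∫ θ in (-Real.pi)..Real.pi, Real.tanh (Ph (s + θ * I)).re < 2 * Real.pi * Real.tanh s := by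
  have hpos : ∀ θ : ℝ, 0 < s + 1 / 1000 * (Real.sinh (2 * s) * Real.cos (2 * θ)) := by
    intro θ
    have := Ph_re_close (w := s + θ * I) (by simpa using h0) (by simpa using h1)
    rw [Ph_re, abs_le] at this
    simp only [add_re, ofReal_re, mul_re, I_re, mul_zero, ofReal_im, I_im, mul_one, sub_self,
      add_zero] at this
    linarith [this.1]
  simp only [Ph_re]
  have hc := continuous_tanh'
  refine (intervalIntegral.integral_lt_integral_of_continuousOn_of_le_of_exists_lt
    (g := fun θ => Real.tanh s + 1 / 1000 * (Real.sinh (2 * s) * Real.cos (2 * θ)) /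
      Real.cosh s ^ 2) (by linarith [Real.pi_pos]) (by fun_prop) (by fun_prop)
    (fun θ _ => tanh_le h0 (hpos θ))
    ⟨Real.pi / 2, ⟨by linarith [Real.pi_pos], by linarith [Real.pi_pos]⟩,
      tanh_lt ?_ (hpos _)⟩).trans_le (le_of_eq ?_)
  · rw [show 2 * (Real.pi / 2) = Real.pi by ring, Real.cos_pi]
    have := Real.sinh_pos_iff.2 (by linarith : 0 < 2 * s)
    linarith
  · rw [intervalIntegral.integral_add (by simp) (Continuous.intervalIntegrable (by fun_prop) _ _),
      intervalIntegral.integral_div, intervalIntegral.integral_const_mul,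
      intervalIntegral.integral_const_mul, intervalIntegral.integral_comp_mul_left Real.cos
        two_ne_zero]
    simp
    exact Or.inl (by ring)

theorem strict_bound : ∫⁻ z in ann 1 (Real.exp 1), ENNReal.ofReal (Real.tanh (ph z) / ‖z‖ ^ 2) <
    ENNReal.ofReal (2 * Real.pi * Real.log (Real.cosh 1)) := by
  have hR : (1 : ℝ) < Real.exp 1 := by simp
  have hpi : -Real.pi ≤ Real.pi := by linarith [Real.pi_pos]
  have hc := continuous_tanh'
  have hg : ContinuousOn (fun z : ℂ => Real.tanh (ph z) / ‖z‖ ^ 2) (ann 1 (Real.exp 1)) :=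
    (hc.comp_continuousOn (continuousOn_ph zero_le_one)).div (continuous_norm.continuousOn.pow 2)
      (fun _ hz => pow_ne_zero _ (norm_ne_zero_iff.2 (ann_ne zero_le_one hz)))
  rw [polar zero_le_one hg]
  have hlt : ∀ ρ ∈ Ioo 1 (Real.exp 1), ∫⁻ θ in Ioo (-Real.pi) Real.pi, ENNReal.ofReal
      (ρ * (Real.tanh (ph (ρ * exp (θ * I))) / ‖(ρ : ℂ) * exp (θ * I)‖ ^ 2)) <
      ENNReal.ofReal (2 * Real.pi * (Real.tanh (Real.log ρ) / ρ)) := by
    intro ρ hρ
    have hρ0 : 0 < ρ := zero_lt_one.trans hρ.1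
    have hs0 : 0 < Real.log ρ := Real.log_pos hρ.1
    have hs1 : Real.log ρ < 1 := (Real.log_lt_iff_lt_exp hρ0).2 hρ.2
    have e : ∀ θ : ℝ, ρ * (Real.tanh (ph (ρ * exp (θ * I))) / ‖(ρ : ℂ) * exp (θ * I)‖ ^ 2) =
        Real.tanh (Ph (Real.log ρ + θ * I)).re / ρ := by
      intro θ
      have a1 : ‖(ρ : ℂ) * exp (θ * I)‖ = ρ := by simp [abs_of_pos hρ0]
      rw [a1, ← ph_exp, exp_add, ← ofReal_exp, Real.exp_log hρ0]
      field_simp
    simp only [e]
    have hPc : Continuous Ph := by unfold Ph; fun_prop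
    rw [lint_Ioo (by fun_prop) (fun θ => ?_) hpi, intervalIntegral.integral_div,
      ENNReal.ofReal_lt_ofReal_iff (by have := tanh_pos' hs0; have := Real.pi_pos; positivity),
      ← mul_div_assoc]
    · exact div_lt_div_of_pos_right (circ_lt hs0 hs1) hρ0
    · refine div_nonneg (tanh_pos' ?_).le hρ0.le
      have := Ph_re_close (w := Real.log ρ + θ * I) (by simpa using hs0) (by simpa using hs1)
      rw [abs_le] at this
      simp only [add_re, ofReal_re, mul_re, I_re, mul_zero, ofReal_im, I_im, mul_one, sub_self,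
        add_zero] at this
      linarith [this.1]
  have hval : ∫⁻ ρ in Ioo 1 (Real.exp 1),
      ENNReal.ofReal (2 * Real.pi * (Real.tanh (Real.log ρ) / ρ)) =
      ENNReal.ofReal (2 * Real.pi * Real.log (Real.cosh 1)) := by
    have hco : ContinuousOn (fun ρ : ℝ => 2 * Real.pi * (Real.tanh (Real.log ρ) / ρ))
        (Icc 1 (Real.exp 1)) :=
      continuousOn_const.mul ((hc.comp_continuousOn (continuousOn_id.log
        (fun x hx => (zero_lt_one.trans_le hx.1).ne'))).div continuousOn_id
        (fun x hx => (zero_lt_one.trans_le hx.1).ne'))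
    rw [← ofReal_integral_eq_lintegral_ofReal (hco.integrableOn_Icc.mono_set Ioo_subset_Icc_self),
      ← integral_Ioc_eq_integral_Ioo, ← intervalIntegral.integral_of_le hR.le,
      intervalIntegral.integral_eq_sub_of_hasDerivAt
        (f := fun ρ => 2 * Real.pi * Real.log (Real.cosh (Real.log ρ)))
        (fun x hx => ?_) (hco.intervalIntegrable_of_Icc hR.le)]
    · simp
    · rw [uIcc_of_le hR.le] at hx
      have := (((Real.hasDerivAt_log (zero_lt_one.trans_le hx.1).ne').cosh).log
        (Real.cosh_pos _).ne').const_mul (2 * Real.pi)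
      refine this.congr_deriv ?_
      rw [Real.tanh_eq_sinh_div_cosh]
      ring
    · refine (ae_restrict_iff' measurableSet_Ioo).2 (Eventually.of_forall fun x hx => ?_)
      have := tanh_pos' (Real.log_pos hx.1)
      have := Real.pi_pos
      have := zero_lt_one.trans hx.1
      positivity
  rw [← hval]
  refine setLIntegral_strict_mono measurableSet_Ioo (by simp) ?_ ?_
    (Eventually.of_forall hlt)
  · have := hc.measurable
    fun_prop
  · refine ne_top_of_le_ne_top ?_ (setLIntegral_mono' measurableSet_Ioo (fun ρ hρ => (hlt ρ hρ).le))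
    rw [hval]
    exact ENNReal.ofReal_ne_top

end Pool.Agent.H611Z.Ring
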