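import Mathlib

/-! Length-area inequality for the argument of a diffeomorphism between round annuli. -/

set_option autoImplicit false

namespace Pool.Agent.H611Z.Ring

open Complex Set Filter Metric Topology Function MeasureTheory
open scoped ENNReal

/-- Round annulus. -/
def ann (r R : ℝ) : Set ℂ := {z : ℂ | r < ‖z‖ ∧ ‖z‖ < R}

theorem isOpen_ann (r R : ℝ) : IsOpen (ann r R) :=
  (isOpen_lt continuous_const continuous_norm).inter (isOpen_lt continuous_norm continuous_const)

theorem ann_ne {r R : ℝ} (hr : 0 ≤ r) {z : ℂ} (hz : z ∈ ann r R) : z ≠ 0 := by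
  rintro rfl
  have := hz.1
  simp at this
  linarith

theorem sc_of_convex {E : Type} [NormedAddCommGroup E] [NormedSpace ℝ E] {s : Set E}
    (h : Convex ℝ s) (hne : s.Nonempty) : IsSimplyConnected s := by
  have := h.contractibleSpace hne
  exact SimplyConnectedSpace.ofContractible s

theorem convex_strip (r R : ℝ) : Convex ℝ (exp ⁻¹' ann r R) := by
  have h1 : Convex ℝ {t : ℝ | r < Real.exp t ∧ Real.exp t < R} := by
    rw [convex_iff_ordConnected]
    refine ⟨fun a ha b hb t ht => ⟨ha.1.trans_le (Real.exp_le_exp.2 ht.1),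
      (Real.exp_le_exp.2 ht.2).trans_lt hb.2⟩⟩
  have := h1.linear_preimage reLm
  have e : exp ⁻¹' ann r R = reLm ⁻¹' {t : ℝ | r < Real.exp t ∧ Real.exp t < R} := by
    ext z
    simp [ann, norm_exp]
  rwa [e]

theorem polar {r R : ℝ} (hr : 0 ≤ r) {g : ℂ → ℝ} (hg : ContinuousOn g (ann r R)) :
    ∫⁻ z in ann r R, ENNReal.ofReal (g z) = ∫⁻ ρ in Ioo r R, ∫⁻ θ in Ioo (-Real.pi) Real.pi,
      ENNReal.ofReal (ρ * g (ρ * exp (θ * I))) := by
  classical
  have hm := (isOpen_ann r R).measurableSet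
  let F : ℂ → ℝ≥0∞ := (ann r R).indicator (fun z => ENNReal.ofReal (g z))
  have hF : Measurable F := by
    have h1 : Measurable ((ann r R).piecewise g (fun _ => 0)) :=
      hg.measurable_piecewise continuousOn_const hm
    have : F = fun z => ENNReal.ofReal ((ann r R).piecewise g (fun _ => 0) z) := by
      funext z
      by_cases hz : z ∈ ann r R <;> simp [F, hz]
    rw [this]
    exact h1.ennreal_ofReal
  rw [← lintegral_indicator hm, ← Complex.lintegral_comp_polarCoord_symm, polarCoord_target,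
    Measure.volume_eq_prod, ← Measure.prod_restrict, lintegral_prod]
  · have hsub : Ioo r R = Ioo r R ∩ Ioi 0 := by
      rw [eq_comm, inter_eq_left]
      exact fun x hx => hr.trans_lt hx.1
    rw [hsub, ← Measure.restrict_restrict measurableSet_Ioo, ← lintegral_indicator measurableSet_Ioo]
    refine setLIntegral_congr_fun measurableSet_Ioi (fun ρ hρ => ?_)
    have hρ' : 0 < ρ := hρ
    have hpt : ∀ θ : ℝ, Complex.polarCoord.symm (ρ, θ) = ρ * exp (θ * I) := by
      intro θ
      rw [Complex.polarCoord_symm_apply, exp_mul_I]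
      simp
    have hn : ∀ θ : ℝ, ‖(ρ : ℂ) * exp (θ * I)‖ = ρ := by
      intro θ
      simp [abs_of_pos hρ']
    by_cases hin : ρ ∈ Ioo r R
    · rw [indicator_of_mem hin]
      refine lintegral_congr (fun θ => ?_)
      simp only [hpt]
      rw [indicator_of_mem (by simpa [ann, abs_of_pos hρ'] using hin), ENNReal.ofReal_mul hρ'.le, smul_eq_mul]
    · rw [indicator_of_notMem hin]
      have : ∀ θ : ℝ, (ρ : ℂ) * exp (θ * I) ∉ ann r R := fun θ => by
        simpa [ann, abs_of_pos hρ'] using hin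
      simp [hpt, indicator_of_notMem (this _)]
  · have h1 : Measurable (fun p : ℝ × ℝ => Complex.polarCoord.symm p) := by
      have : (fun p : ℝ × ℝ => Complex.polarCoord.symm p) =
          fun p : ℝ × ℝ => (p.1 : ℂ) * (Real.cos p.2 + Real.sin p.2 * I) := by
        funext p
        exact Complex.polarCoord_symm_apply p
      rw [this]
      fun_prop
    have h2 : Measurable (fun p : ℝ × ℝ => ENNReal.ofReal p.1 * F (Complex.polarCoord.symm p)) :=
      Measurable.mul (measurable_fst.ennreal_ofReal) (hF.comp h1)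
    exact h2.aemeasurable

theorem lift_deriv {x γ : ℝ → ℂ} {t : ℝ} {d : ℂ} (hx : Continuous x) (he : ∀ s, exp (x s) = γ s)
    (hγ : HasDerivAt γ d t) : HasDerivAt x (d / γ t) t := by
  have h0 : γ t ≠ 0 := by rw [← he]; exact exp_ne_zero _
  have h1 : HasDerivAt (fun s => log (γ s / γ t) + x t) (d / γ t) t := by
    have := ((hγ.div_const (γ t)).clog_real (by simp [h0])).add_const (x t)
    simpa [h0] using this
  refine h1.congr_of_eventuallyEq ?_
  have h2 : ∀ᶠ s in 𝓝 t, (x s - x t).im ∈ Ioo (-Real.pi) Real.pi := by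
    have hc : Continuous (fun s => (x s - x t).im) := by fun_prop
    apply hc.continuousAt.eventually_mem
    simp only [sub_self, zero_im]
    exact Ioo_mem_nhds (by linarith [Real.pi_pos]) Real.pi_pos
  filter_upwards [h2] with s hs
  rw [← he s, ← he t, ← exp_sub, log_exp hs.1 hs.2.le]
  ring

theorem const_of_exp_one {y : ℝ → ℂ} (hy : Continuous y) (he : ∀ s, exp (y s) = 1) (s t : ℝ) :
    y s = y t := by
  have hd : ∀ u, HasDerivAt y 0 u := fun u => by
    simpa using lift_deriv (γ := fun _ => 1) hy he (hasDerivAt_const u (1 : ℂ))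
  exact is_const_of_deriv_eq_zero (fun u => (hd u).differentiableAt) (fun u => (hd u).deriv) s t

/-- Squared gradient of the argument. -/
noncomputable def gradArg (χ : ℂ → ℂ) (z : ℂ) : ℝ :=
  (fderiv ℝ χ z 1 / χ z).im ^ 2 + (fderiv ℝ χ z I / χ z).im ^ 2

theorem circle_bound {r1 R1 r2 R2 : ℝ} (h1 : 0 ≤ r1) (h2 : 0 ≤ r2) {χ k : ℂ → ℂ}
    (hχ : ContDiffOn ℝ 1 χ (ann r1 R1)) (mχ : MapsTo χ (ann r1 R1) (ann r2 R2))
    (hk : ContinuousOn k (ann r2 R2)) (mk : MapsTo k (ann r2 R2) (ann r1 R1))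
    (hkχ : ∀ z ∈ ann r1 R1, k (χ z) = z) {ρ : ℝ} (hρ : ρ ∈ Ioo r1 R1) :
    2 * Real.pi ≤ ∫ θ in (-Real.pi)..Real.pi, ρ ^ 2 * gradArg χ (ρ * exp (θ * I)) := by
  have hρ0 : 0 < ρ := h1.trans_lt hρ.1
  let c : ℝ → ℂ := fun θ => ρ * exp (θ * I)
  have hcn : ∀ θ, ‖c θ‖ = ρ := fun θ => by simp [c, abs_of_pos hρ0]
  have hc : ∀ θ, c θ ∈ ann r1 R1 := fun θ => by simpa [ann, hcn] using hρ
  have hcc : Continuous c := by fun_prop
  have hcd : ∀ θ, HasDerivAt c (I * c θ) θ := fun θ => by
    have h0 : HasDerivAt (fun t : ℝ => (t : ℂ)) 1 θ := by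
      simpa using (hasDerivAt_id θ).ofReal_comp
    have h3 : HasDerivAt (fun t : ℝ => (ρ : ℂ) * exp (t * I)) (ρ * (exp (θ * I) * (1 * I))) θ :=
      ((h0.mul_const I).cexp).const_mul (ρ : ℂ)
    have h4 : I * c θ = ρ * (exp (θ * I) * (1 * I)) := by simp only [c]; ring
    rw [h4]
    exact h3
  have hO := isOpen_ann r1 R1
  have hχd : ∀ z ∈ ann r1 R1, HasFDerivAt χ (fderiv ℝ χ z) z := fun z hz =>
    ((hχ.differentiableOn one_ne_zero).differentiableAt (hO.mem_nhds hz)).hasFDerivAt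
  have hγc : Continuous (fun θ => χ (c θ)) := hχ.continuousOn.comp_continuous hcc hc
  have hDc : Continuous (fun θ => fderiv ℝ χ (c θ)) :=
    (hχ.continuousOn_fderiv_of_isOpen hO le_rfl).comp_continuous hcc hc
  have hγ0 : ∀ θ, χ (c θ) ≠ 0 := fun θ => ann_ne h2 (mχ (hc θ))
  obtain ⟨x, hx, hxe⟩ := exists_continuousOn_eqOn_exp_comp (U := (univ : Set ℝ))
    (sc_of_convex convex_univ univ_nonempty) isOpen_univ hγc.continuousOn
    (by rintro ⟨θ, -, e⟩; exact hγ0 θ e)
  have hx' : Continuous x := continuousOn_univ.1 hx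
  have hxe' : ∀ s, exp (x s) = χ (c s) := fun s => hxe (mem_univ s)
  let u : ℝ → ℂ := fun θ => fderiv ℝ χ (c θ) (I * c θ) / χ (c θ)
  have huc : Continuous u :=
    (hDc.clm_apply (continuous_const.mul hcc)).div hγc hγ0
  have hxd : ∀ θ, HasDerivAt x (u θ) θ := fun θ =>
    lift_deriv hx' hxe' ((hχd _ (hc θ)).comp_hasDerivAt θ (hcd θ))
  have hint : ∫ θ in (-Real.pi)..Real.pi, u θ = x Real.pi - x (-Real.pi) :=
    intervalIntegral.integral_eq_sub_of_hasDerivAt (fun θ _ => hxd θ) (huc.intervalIntegrable _ _)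
  have hcl : c Real.pi = c (-Real.pi) := by
    simp [c, exp_pi_mul_I, exp_neg]
  obtain ⟨n, hn⟩ := exp_eq_exp_iff_exists_int.1
    (show exp (x Real.pi) = exp (x (-Real.pi)) by rw [hxe', hxe', hcl])
  have hxS : ∀ s, x s ∈ exp ⁻¹' ann r2 R2 := fun s => by
    show exp (x s) ∈ ann r2 R2
    rw [hxe']
    exact mχ (hc s)
  obtain ⟨Y, hY, hYe⟩ := exists_continuousOn_eqOn_exp_comp (U := exp ⁻¹' ann r2 R2)
    (g := fun w => k (exp w)) (sc_of_convex (convex_strip r2 R2) ⟨_, hxS 0⟩)
    ((isOpen_ann r2 R2).preimage continuous_exp)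
    (hk.comp continuous_exp.continuousOn (fun w hw => hw))
    (by rintro ⟨w, hw, e⟩; exact ann_ne h1 (mk hw) e)
  have hn0 : n ≠ 0 := by
    rintro rfl
    have hyc : Continuous (fun s => Y (x s) - (Real.log ρ + s * I)) :=
      (hY.comp_continuous hx' hxS).sub (by fun_prop)
    have := const_of_exp_one hyc (fun s => by
      have e1 : exp (Y (x s)) = c s := by
        have := hYe (hxS s)
        simp only [comp_apply] at this
        rw [this, hxe', hkχ _ (hc s)]
      rw [exp_sub, e1, exp_add, ← ofReal_exp, Real.exp_log hρ0]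
      exact div_self (ann_ne h1 (hc s))) Real.pi (-Real.pi)
    simp only [Int.cast_zero, zero_mul, add_zero] at hn
    rw [hn] at this
    have h3 := congrArg Complex.im this
    simp at h3
    linarith [Real.pi_pos]
  have him : ∫ θ in (-Real.pi)..Real.pi, (u θ).im = n * (2 * Real.pi) := by
    have := intervalIntegral.intervalIntegral_im (huc.intervalIntegrable (μ := volume)
      (-Real.pi) Real.pi)
    simp only [RCLike.im_to_complex] at this
    rw [this, hint, hn]
    simp
  obtain ⟨σ, hσ, hσn⟩ : ∃ σ : ℝ, σ ^ 2 = 1 ∧ 1 ≤ σ * n := by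
    rcases lt_or_gt_of_ne hn0 with h | h
    · refine ⟨-1, by norm_num, ?_⟩
      have : n ≤ -1 := by omega
      have : (n : ℝ) ≤ -1 := by exact_mod_cast this
      linarith
    · refine ⟨1, by norm_num, ?_⟩
      have : 1 ≤ n := by omega
      have : (1 : ℝ) ≤ n := by exact_mod_cast this
      linarith
  have hic : Continuous (fun θ => (u θ).im) := by fun_prop
  have hG : Continuous (fun θ => ρ ^ 2 * gradArg χ (c θ)) := by
    unfold gradArg
    have a1 := (hDc.clm_apply (continuous_const (y := (1 : ℂ)))).div hγc hγ0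
    have a2 := (hDc.clm_apply (continuous_const (y := I))).div hγc hγ0
    exact continuous_const.mul (((continuous_im.comp a1).pow 2).add ((continuous_im.comp a2).pow 2))
  have hpt : ∀ θ, 2 * σ * (u θ).im - 1 ≤ ρ ^ 2 * gradArg χ (c θ) := by
    intro θ
    have e1 : I * c θ = (-(c θ).im) • (1 : ℂ) + (c θ).re • I := by
      apply Complex.ext <;> simp
    have e2 : (u θ).im = -(c θ).im * (fderiv ℝ χ (c θ) 1 / χ (c θ)).im +
        (c θ).re * (fderiv ℝ χ (c θ) I / χ (c θ)).im := by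
      simp only [u]
      rw [e1, map_add, map_smul, map_smul, add_div, smul_div_assoc, smul_div_assoc]
      simp
    have e3 : ρ ^ 2 = (c θ).re ^ 2 + (c θ).im ^ 2 := by
      rw [← hcn θ, ← normSq_eq_norm_sq, normSq_apply]; ring
    have e4 : (u θ).im ^ 2 ≤ ρ ^ 2 * gradArg χ (c θ) := by
      rw [e2, e3, gradArg]
      nlinarith [sq_nonneg ((c θ).re * (fderiv ℝ χ (c θ) 1 / χ (c θ)).im +
        (c θ).im * (fderiv ℝ χ (c θ) I / χ (c θ)).im)]
    nlinarith [sq_nonneg ((u θ).im - σ)]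
  have hic2 : Continuous (fun θ => 2 * σ * (u θ).im) := continuous_const.mul hic
  have hic3 : Continuous (fun θ => 2 * σ * (u θ).im - 1) := hic2.sub continuous_const
  have hmono : ∫ θ in (-Real.pi)..Real.pi, (2 * σ * (u θ).im - 1) ≤
      ∫ θ in (-Real.pi)..Real.pi, ρ ^ 2 * gradArg χ (c θ) :=
    intervalIntegral.integral_mono_on
      (by linarith [Real.pi_pos] : -Real.pi ≤ Real.pi) (hic3.intervalIntegrable _ _)
      (hG.intervalIntegrable _ _) (fun θ _ => hpt θ)
  suffices key : 2 * Real.pi ≤ ∫ θ in (-Real.pi)..Real.pi, (2 * σ * (u θ).im - 1) from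
    key.trans hmono
  rw [intervalIntegral.integral_sub (hic2.intervalIntegrable _ _)
    (continuous_const.intervalIntegrable _ _), intervalIntegral.integral_const_mul, him]
  simp
  nlinarith [Real.pi_pos]

theorem continuousOn_gradArg {r1 R1 : ℝ} {χ : ℂ → ℂ} (hχ : ContDiffOn ℝ 1 χ (ann r1 R1))
    (h0 : ∀ z ∈ ann r1 R1, χ z ≠ 0) : ContinuousOn (gradArg χ) (ann r1 R1) := by
  have hD := hχ.continuousOn_fderiv_of_isOpen (isOpen_ann r1 R1) le_rfl
  have a1 := (hD.clm_apply (continuousOn_const (c := (1 : ℂ)))).div hχ.continuousOn h0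
  have a2 := (hD.clm_apply (continuousOn_const (c := I))).div hχ.continuousOn h0
  exact ((continuous_im.comp_continuousOn a1).pow 2).add ((continuous_im.comp_continuousOn a2).pow 2)

theorem continuousOn_inv_sq {r R : ℝ} (hr : 0 ≤ r) :
    ContinuousOn (fun z : ℂ => 1 / ‖z‖ ^ 2) (ann r R) :=
  continuousOn_const.div (continuous_norm.continuousOn.pow 2)
    (fun _ hz => pow_ne_zero _ (norm_ne_zero_iff.2 (ann_ne hr hz)))

theorem lint_Ioo {f : ℝ → ℝ} (hf : Continuous f) (h0 : ∀ t, 0 ≤ f t) {a b : ℝ} (hab : a ≤ b) :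
    ∫⁻ t in Ioo a b, ENNReal.ofReal (f t) = ENNReal.ofReal (∫ t in a..b, f t) := by
  rw [intervalIntegral.integral_of_le hab, integral_Ioc_eq_integral_Ioo,
    ofReal_integral_eq_lintegral_ofReal
      ((hf.integrableOn_Icc (a := a) (b := b)).mono_set Ioo_subset_Icc_self)
      (Eventually.of_forall h0)]

theorem wind {r1 R1 r2 R2 : ℝ} (h1 : 0 ≤ r1) (h2 : 0 ≤ r2) {χ k : ℂ → ℂ}
    (hχ : ContDiffOn ℝ 1 χ (ann r1 R1)) (mχ : MapsTo χ (ann r1 R1) (ann r2 R2))
    (hk : ContinuousOn k (ann r2 R2)) (mk : MapsTo k (ann r2 R2) (ann r1 R1))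
    (hkχ : ∀ z ∈ ann r1 R1, k (χ z) = z) :
    ∫⁻ z in ann r1 R1, ENNReal.ofReal (1 / ‖z‖ ^ 2) ≤
      ∫⁻ z in ann r1 R1, ENNReal.ofReal (gradArg χ z) := by
  have hG := continuousOn_gradArg hχ (fun z hz => ann_ne h2 (mχ hz))
  rw [polar h1 (continuousOn_inv_sq h1), polar h1 hG]
  refine setLIntegral_mono' measurableSet_Ioo (fun ρ hρ => ?_)
  have hρ0 : 0 < ρ := h1.trans_lt hρ.1
  have hpi : -Real.pi ≤ Real.pi := by linarith [Real.pi_pos]
  have hcn : ∀ θ : ℝ, ‖(ρ : ℂ) * exp (θ * I)‖ = ρ := fun θ => by simp [abs_of_pos hρ0]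
  have hc : ∀ θ : ℝ, (ρ : ℂ) * exp (θ * I) ∈ ann r1 R1 := fun θ => by
    simpa [ann, abs_of_pos hρ0] using hρ
  have hGc : Continuous (fun θ : ℝ => ρ * gradArg χ (ρ * exp (θ * I))) :=
    continuous_const.mul (hG.comp_continuous (by fun_prop) hc)
  simp only [hcn]
  rw [lint_Ioo continuous_const (fun _ => by positivity) hpi,
    lint_Ioo hGc (fun _ => by unfold gradArg; positivity) hpi]
  apply ENNReal.ofReal_le_ofReal
  have := circle_bound h1 h2 hχ mχ hk mk hkχ hρ
  rw [intervalIntegral.integral_const_mul] at this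
  rw [intervalIntegral.integral_const_mul (r := ρ), intervalIntegral.integral_const_mul]
  simp only [intervalIntegral.integral_const, smul_eq_mul]
  apply mul_le_mul_of_nonneg_left _ hρ0.le
  rw [mul_one_div, div_le_iff₀ (by positivity)]
  linarith

theorem lint_inv_sq {r R : ℝ} (hr : 0 < r) (hR : r ≤ R) :
    ∫⁻ z in ann r R, ENNReal.ofReal (1 / ‖z‖ ^ 2) =
      ENNReal.ofReal (2 * Real.pi * (Real.log R - Real.log r)) := by
  rw [polar hr.le (continuousOn_inv_sq hr.le)]
  have hpi : -Real.pi ≤ Real.pi := by linarith [Real.pi_pos]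
  have : ∀ ρ ∈ Ioo r R, ∫⁻ θ in Ioo (-Real.pi) Real.pi,
      ENNReal.ofReal (ρ * (1 / ‖(ρ : ℂ) * exp (θ * I)‖ ^ 2)) =
      ENNReal.ofReal (2 * Real.pi * (1 / max ρ r)) := by
    intro ρ hρ
    have hρ0 : 0 < ρ := hr.trans hρ.1
    have hcn : ∀ θ : ℝ, ‖(ρ : ℂ) * exp (θ * I)‖ = ρ := fun θ => by simp [abs_of_pos hρ0]
    simp only [hcn]
    rw [lint_Ioo continuous_const (fun _ => by positivity) hpi, max_eq_left hρ.1.le]
    congr 1
    simp only [intervalIntegral.integral_const, smul_eq_mul]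
    field_simp
    ring
  have hcont : Continuous (fun t : ℝ => 2 * Real.pi * (1 / max t r)) :=
    continuous_const.mul (continuous_const.div (by fun_prop)
      (fun t => (lt_max_of_lt_right hr).ne'))
  rw [setLIntegral_congr_fun measurableSet_Ioo this, lint_Ioo hcont
    (fun t => by have := Real.pi_pos; have : 0 < max t r := lt_max_of_lt_right hr; positivity) hR,
    intervalIntegral.integral_const_mul]
  congr 2
  rw [intervalIntegral.integral_congr (g := fun t => 1 / t), integral_one_div_of_pos hr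
    (hr.trans_le hR), Real.log_div (hr.trans_le hR).ne' hr.ne']
  intro t ht
  rw [uIcc_of_le hR] at ht
  simp only [max_eq_left ht.1]

end Pool.Agent.H611Z.Ring
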